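import Pool.Agent.Lib.MP_17a322_ntVB.Defs
import Pool.Agent.Lib.MP_17a322_ntLH.T3B
import Pool.Agent.Lib.MP_10e784_agW.SC

/-!
# LEAF BC: many primes of `J` with `p - 1` and `p + 1` smooth

PROOF.  Copy `MP_17a322_ntLH/T3B.lean` (`smoothK`) with `hJ` in place of `d1_sum` and two kinds of bad primes: `badm_card` (prime factors of `p - 1`, T2B) and `MWS.bad_card` (prime factors of `p + 1`, `MP_10e784_agW/SC.lean`); the blocks `T3B_block`, `T3B_blocks` for both (private there: copy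
them, or state them for a general finite set); `c` with `8 C c ≤ w log 2` for `C` the larger constant.
-/

namespace VK

open Finset NumberField LVH

open Classical in
/-- one block -/
private theorem BC_block {R : ℕ → Prop} {S : Finset ℕ} {x t B : ℝ} (hx : 1 < x) (ht : 0 < t) (htx : t ≤ x)
    (hS : ∀ p, 1 ≤ p → p ≤ ⌊t⌋₊ → p.Prime → R p → p ∈ S)
    (h : (S.card : ℝ) ≤ B * t / Real.log x) :
    ∑ p ∈ Ioc ⌊t / 2⌋₊ ⌊t⌋₊, (if p.Prime ∧ R p then Real.log p / (p : ℝ) else 0) ≤ 2 * B := by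
  have hlog : 0 < Real.log x := Real.log_pos hx
  have hsub : (Ioc ⌊t / 2⌋₊ ⌊t⌋₊).filter (fun p => p.Prime ∧ R p) ⊆ S := by
    intro p hp
    rw [mem_filter, mem_Ioc] at hp
    exact hS p (by omega) hp.1.2 hp.2.1 hp.2.2
  rw [← sum_filter]
  have h1 : ∀ p ∈ (Ioc ⌊t / 2⌋₊ ⌊t⌋₊).filter (fun p => p.Prime ∧ R p),
      Real.log p / (p : ℝ) ≤ Real.log x * (2 / t) := by
    intro p hp
    rw [mem_filter, mem_Ioc] at hp
    obtain ⟨⟨hp1, hp2⟩, _⟩ := hp
    have h2 : t / 2 < p := (Nat.floor_lt (by positivity)).1 hp1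
    have h3 : (p : ℝ) ≤ t := (Nat.le_floor_iff ht.le).1 hp2
    have hp0 : (0 : ℝ) < p := by linarith
    have h4 : Real.log p ≤ Real.log x := Real.log_le_log hp0 (h3.trans htx)
    have h5 : 1 / (p : ℝ) ≤ 2 / t := by
      rw [div_le_div_iff₀ hp0 ht]
      linarith
    calc Real.log p / (p : ℝ) = Real.log p * (1 / (p : ℝ)) := by ring
      _ ≤ Real.log x * (1 / (p : ℝ)) := by gcongr
      _ ≤ Real.log x * (2 / t) := by gcongr
  refine (sum_le_card_nsmul _ _ _ h1).trans ?_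
  rw [nsmul_eq_mul]
  have h2 : (((Ioc ⌊t / 2⌋₊ ⌊t⌋₊).filter (fun p => p.Prime ∧ R p)).card : ℝ) ≤ B * t / Real.log x := by
    refine le_trans ?_ h
    exact_mod_cast card_le_card hsub
  calc (((Ioc ⌊t / 2⌋₊ ⌊t⌋₊).filter (fun p => p.Prime ∧ R p)).card : ℝ) *
        (Real.log x * (2 / t)) ≤ B * t / Real.log x * (Real.log x * (2 / t)) := by gcongr
    _ = 2 * B := by
        field_simp

open Classical in
/-- the blocks `(x / 2 ^ r, x]` -/
private theorem BC_blocks {R : ℕ → Prop} {S : ℝ → Finset ℕ} {x B : ℝ} (hx : 1 < x)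
    (hS : ∀ t p, 1 ≤ p → p ≤ ⌊t⌋₊ → p.Prime → R p → p ∈ S t) (r : ℕ)
    (h : ∀ i : ℕ, i < r → ((S (x / 2 ^ i)).card : ℝ) ≤ B * (x / 2 ^ i) / Real.log x) :
    ∑ p ∈ Ioc ⌊x / 2 ^ r⌋₊ ⌊x⌋₊, (if p.Prime ∧ R p then Real.log p / (p : ℝ) else 0) ≤ 2 * B * r := by
  induction r with
  | zero => simp
  | succ r ih =>
    have h1 := ih fun i hi => h i (by omega)
    have h2 : x / 2 ^ (r + 1) = x / 2 ^ r / 2 := by
      rw [pow_succ]
      field_simp
    have h3 : ⌊x / 2 ^ (r + 1)⌋₊ ≤ ⌊x / 2 ^ r⌋₊ := by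
      apply Nat.floor_le_floor
      rw [h2]
      have : 0 < x / 2 ^ r := by positivity
      linarith
    have h4 : ⌊x / 2 ^ r⌋₊ ≤ ⌊x⌋₊ := by
      apply Nat.floor_le_floor
      apply div_le_self (by linarith)
      exact one_le_pow₀ (by norm_num)
    rw [← Finset.sum_Ioc_consecutive _ h3 h4, h2]
    have h5 := BC_block (R := R) (S := S (x / 2 ^ r)) hx (t := x / 2 ^ r) (by positivity)
      (div_le_self (by linarith) (one_le_pow₀ (by norm_num))) (hS (x / 2 ^ r)) (h r (by omega))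
    push_cast
    linarith

theorem smoothV (L : Type) [Field L] [NumberField L] {J : ℕ → Prop} (hJ : Mean L J) : ∃ A : ℝ, 1 < A ∧ A ≤ 2 ∧
    ∃ Q : ℝ, 1 ≤ Q ∧ ∃ x0 : ℝ, 2 ≤ x0 ∧ ∀ x : ℝ, x0 ≤ x → x / (Q * Real.log x) ≤ ((SV L J A Q x).card : ℝ) := by
  classical
  obtain ⟨Ca, hCa, hbada⟩ := badm_card
  obtain ⟨Cb, hCb, hbadb⟩ := MWS.bad_card
  obtain ⟨C, hCC⟩ : ∃ C : ℝ, C = Ca + Cb := ⟨_, rfl⟩
  have hC : 0 < C := by rw [hCC]; positivity
  obtain ⟨w, CD, hw0, hin⟩ := hJ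
  have hl2 : 0 < Real.log 2 := Real.log_pos (by norm_num)
  obtain ⟨c, hc⟩ : ∃ c : ℝ, c = min 1 (w * Real.log 2 / (4 * C)) := ⟨_, rfl⟩
  have hc0 : 0 < c := by rw [hc]; exact lt_min one_pos (by positivity)
  have hc1 : c ≤ 1 := by rw [hc]; exact min_le_left _ _
  have hc2 : 4 * C * c ≤ w * Real.log 2 := by
    have h1 : c ≤ w * Real.log 2 / (4 * C) := by rw [hc]; exact min_le_right _ _
    rwa [le_div_iff₀ (by positivity), mul_comm] at h1
  have hAc : 1 - 1 / (1 + c) ≤ c := by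
    have h1 : 1 - 1 / (1 + c) = c / (1 + c) := by
      field_simp
      ring
    rw [h1]
    exact div_le_self hc0.le (by linarith)
  have hA1 : 0 ≤ 1 - 1 / (1 + c) := by
    have h1 : 1 / (1 + c) ≤ 1 := by
      rw [div_le_one (by linarith)]
      linarith
    linarith
  obtain ⟨r, hr⟩ := exists_nat_ge (2 * (CD + 1) / (w * Real.log 2))
  have hr' : 2 * (CD + 1) ≤ r * (w * Real.log 2) := by rwa [div_le_iff₀ (by positivity)] at hr
  obtain ⟨Q, hQ⟩ : ∃ Q : ℝ, Q = 2 ^ r := ⟨_, rfl⟩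
  have hQ1 : 1 ≤ Q := by rw [hQ]; exact one_le_pow₀ (by norm_num)
  have hQ0 : 0 < Q := by linarith
  obtain ⟨xa, hxa2, hxa⟩ := hbada (1 + c) (by linarith) (by linarith) Q hQ1
  obtain ⟨xb, hxb2, hxb⟩ := hbadb (1 + c) (by linarith) (by linarith) Q hQ1
  refine ⟨1 + c, by linarith, by linarith, Q, hQ1, max (max xa xb) (2 * Q),
    le_trans hxa2 (le_trans (le_max_left _ _) (le_max_left _ _)), fun x hx => ?_⟩
  have hxxa : xa ≤ x := ((le_max_left _ _).trans (le_max_left _ _)).trans hx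
  have hxxb : xb ≤ x := ((le_max_right _ _).trans (le_max_left _ _)).trans hx
  have hx2Q : 2 * Q ≤ x := (le_max_right _ _).trans hx
  have hx2 : 2 ≤ x := by linarith
  have hx0 : 0 < x := by linarith
  have hlog : 0 < Real.log x := Real.log_pos (by linarith)
  have hxQ2 : 2 ≤ x / Q := by
    rw [le_div_iff₀ hQ0]
    exact hx2Q
  have hlogQ : Real.log Q = r * Real.log 2 := by rw [hQ, Real.log_pow]
  -- the primes of `J` of degree one
  have h1 := hin (x / Q) x hxQ2 (div_le_self hx0.le hQ1)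
  have h2 : x / (x / Q) = Q := by
    field_simp
  rw [h2, hlogQ] at h1
  -- the bad primes
  obtain ⟨R, hR⟩ : ∃ R : ℕ → Prop, R = fun p => ∃ q : ℕ, q.Prime ∧ (q ∣ p - 1 ∨ q ∣ p + 1) ∧ x < (q : ℝ) ^ (1 + c) :=
    ⟨_, rfl⟩
  have h3 := BC_blocks (R := R) (S := fun t => badm (1 + c) x t ∪ MWS.bad (1 + c) x t) (x := x)
    (B := C * (1 - 1 / (1 + c))) (by linarith) (by
      intro t p hp1 hp2 hp hRp
      rw [hR] at hRp
      obtain ⟨q, hq, hd, hqx⟩ := hRp
      rw [mem_union]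
      rcases hd with hd | hd
      · left
        unfold badm
        rw [mem_filter, mem_Icc]
        exact ⟨⟨hp1, hp2⟩, hp, q, hq, hd, hqx⟩
      · right
        unfold MWS.bad
        rw [mem_filter, mem_Icc]
        exact ⟨⟨hp1, hp2⟩, hp, q, hq, hd, hqx⟩) r (by
    intro i hi
    have h4 : x / Q ≤ x / 2 ^ i := by
      rw [hQ]
      apply div_le_div_of_nonneg_left hx0.le (by positivity)
      exact pow_le_pow_right₀ (by norm_num) hi.le
    have h5 : x / 2 ^ i ≤ x := div_le_self hx0.le (one_le_pow₀ (by norm_num))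
    have h6 := hxa x hxxa (x / 2 ^ i) h4 h5
    have h7 := hxb x hxxb (x / 2 ^ i) h4 h5
    have h8 : ((badm (1 + c) x (x / 2 ^ i) ∪ MWS.bad (1 + c) x (x / 2 ^ i)).card : ℝ) ≤
        ((badm (1 + c) x (x / 2 ^ i)).card : ℝ) + ((MWS.bad (1 + c) x (x / 2 ^ i)).card : ℝ) := by
      exact_mod_cast card_union_le _ _
    have h9 : C * (1 - 1 / (1 + c)) * (x / 2 ^ i) / Real.log x =
        Ca * (1 - 1 / (1 + c)) * (x / 2 ^ i) / Real.log x + Cb * (1 - 1 / (1 + c)) * (x / 2 ^ i) / Real.log x := by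
      rw [hCC]; ring
    rw [h9]
    linarith)
  rw [← hQ] at h3
  have h4 : 2 * (C * (1 - 1 / (1 + c))) * r ≤ 1 / 2 * (r * (w * Real.log 2)) := by
    have h5 : C * (1 - 1 / (1 + c)) ≤ C * c := mul_le_mul_of_nonneg_left hAc hC.le
    have h6 : 2 * (C * (1 - 1 / (1 + c))) ≤ 1 / 2 * (w * Real.log 2) := by linarith
    calc 2 * (C * (1 - 1 / (1 + c))) * r ≤ 1 / 2 * (w * Real.log 2) * r := by gcongr
      _ = 1 / 2 * (r * (w * Real.log 2)) := by ring
  -- splitting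
  have h5 : ∑ p ∈ (Ioc ⌊x / Q⌋₊ ⌊x⌋₊).filter (fun p => p.Prime ∧ D1 L p ∧ J p), Real.log p / (p : ℝ) ≤
      (∑ p ∈ SV L J (1 + c) Q x, Real.log p / (p : ℝ)) +
      ∑ p ∈ Ioc ⌊x / Q⌋₊ ⌊x⌋₊, (if p.Prime ∧ R p then Real.log p / (p : ℝ) else 0) := by
    unfold SV
    rw [sum_filter, sum_filter, ← sum_add_distrib]
    apply sum_le_sum
    intro p _
    have hp0 : 0 ≤ Real.log p / (p : ℝ) := div_nonneg (Real.log_natCast_nonneg p) (Nat.cast_nonneg p)
    by_cases ha : p.Prime ∧ D1 L p ∧ J p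
    · rw [if_pos ha]
      by_cases hb : ∀ q : ℕ, q.Prime → (q ∣ p - 1 ∨ q ∣ p + 1) → (q : ℝ) ^ (1 + c) ≤ x
      · rw [if_pos ⟨ha.1, ha.2.1, ha.2.2, hb⟩]
        have : 0 ≤ (if p.Prime ∧ R p then Real.log p / (p : ℝ) else 0) := by
          split_ifs
          · exact hp0
          · exact le_rfl
        linarith
      · push Not at hb
        have hRp : R p := by rw [hR]; exact hb
        rw [if_pos (⟨ha.1, hRp⟩ : p.Prime ∧ R p)]
        have : 0 ≤ (if p.Prime ∧ D1 L p ∧ J p ∧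
            ∀ q : ℕ, q.Prime → (q ∣ p - 1 ∨ q ∣ p + 1) → (q : ℝ) ^ (1 + c) ≤ x then
            Real.log p / (p : ℝ) else 0) := by
          split_ifs
          · exact hp0
          · exact le_rfl
        linarith
    · rw [if_neg ha]
      apply add_nonneg
      · split_ifs
        · exact hp0
        · exact le_rfl
      · split_ifs
        · exact hp0
        · exact le_rfl
  have h6 : 1 ≤ ∑ p ∈ SV L J (1 + c) Q x, Real.log p / (p : ℝ) := by
    have e1 : w * ((r : ℝ) * Real.log 2) = r * (w * Real.log 2) := by ring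
    rw [e1] at h1
    linarith
  -- each term
  have h7 : ∀ p ∈ SV L J (1 + c) Q x, Real.log p / (p : ℝ) ≤ Real.log x * (Q / x) := by
    intro p hp
    unfold SV at hp
    rw [mem_filter, mem_Ioc] at hp
    have h8 : x / Q < p := (Nat.floor_lt (by positivity)).1 hp.1.1
    have h9 : (p : ℝ) ≤ x := (Nat.le_floor_iff hx0.le).1 hp.1.2
    have hp0 : (0 : ℝ) < p := by linarith
    have h10 : Real.log p ≤ Real.log x := Real.log_le_log hp0 h9
    have h11 : 1 / (p : ℝ) ≤ Q / x := by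
      rw [div_le_div_iff₀ hp0 hx0]
      rw [div_lt_iff₀ hQ0] at h8
      linarith
    calc Real.log p / (p : ℝ) = Real.log p * (1 / (p : ℝ)) := by ring
      _ ≤ Real.log x * (1 / (p : ℝ)) := by gcongr
      _ ≤ Real.log x * (Q / x) := by gcongr
  have h8 := sum_le_card_nsmul _ _ _ h7
  rw [nsmul_eq_mul] at h8
  rw [div_le_iff₀ (by positivity)]
  have h9 : 1 ≤ ((SV L J (1 + c) Q x).card : ℝ) * (Real.log x * (Q / x)) := h6.trans h8
  have h10 : ((SV L J (1 + c) Q x).card : ℝ) * (Real.log x * (Q / x)) =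
      ((SV L J (1 + c) Q x).card : ℝ) * (Q * Real.log x) / x := by ring
  rw [h10, le_div_iff₀ hx0, one_mul] at h9
  exact h9

end VK
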