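import Pool.Agent.Lib.MP_17a322_ntVB.BB1

/-!
# LEAF BB2: the four types

PROOF.  `mean_true`: `LVH.d1_sum`.  `mean_mono`: if for all primes `p` off a finite set `D1 L' p` and `J' p` imply `D1 L p` and `J p`, then `Mean L' J'` implies `Mean L J` (the finitely many primes contribute a constant `∑ log p / p`).
`d1_down`: a prime ideal `Q` of `L'` of norm `p` has `Q ∩ 𝓞_L` of norm `p` (`𝓞_L / (Q ∩ 𝓞_L)` embeds into `𝓞_L' / Q`, which has `p` elements, and is not trivial; so its cardinality divides `p`, or: it is a field with at most `p` elements containing `ZMod p`).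
`d1_sq`: `LVH.exists_pl L hp h` gives `π`, `α` is integral (`α² = D`), so `α ∈ π.V` (`int_mem` of `MP_17a322_ntVK/SR1`), and the residue `a` of `α` satisfies `a² = D`.
`mean_types`: neither: `mean_true`.  Only `a`: `mean_inert` for `D = -1`; for a prime `p`: `-1` not a square modulo `p` implies `p % 4 = 3` (`ZMod.exists_sq_eq_neg_one_iff`).  Only `b`: `mean_inert` for `D = -3`; `-3` not a square modulo `p` implies `p % 3 = 2`: otherwise `p = 3` or
`p % 3 = 1` and there is `w` with `w² + w + 1 = 0` (an element of order three of the cyclic group of order `p - 1`), `(2 w + 1)² = -3`.  Both: if `3` is a square in `L` let `L' = L`, `α² = 3`, else `L' = M` of `exists_quad L` for `D = 3`; `-1` is not a square in `L'`: if `(u + v α)² = -1` then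
`2 u v = 0` (coordinates; `α ∉ L`), so `u² = -1` or `3 v² = -1`, `(3 v)² = -3`, contradictions.  `mean_inert L'` for `D = -1`; off `p = 3`: `D1 L' p` implies `D1 L p` (`d1_down`) and `3` is a square modulo `p` (`d1_sq`), so `-3` is not a square (`-1 = -3 / 3`).
-/

namespace VK

open Finset NumberField LVH

private theorem BB2_nonneg (p : ℕ) : 0 ≤ Real.log p / (p : ℝ) :=
  div_nonneg (Real.log_natCast_nonneg p) (Nat.cast_nonneg p)

theorem mean_true (L : Type) [Field L] [NumberField L] : Mean L (fun _ => True) := by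
  classical
  obtain ⟨C, _, h⟩ := d1_sum L
  have hn0 : 0 < Module.finrank ℚ L := Module.finrank_pos
  have hnR : (0 : ℝ) < Module.finrank ℚ L := by exact_mod_cast hn0
  refine ⟨1 / (Module.finrank ℚ L : ℝ), C, by positivity, fun y x hy hyx => ?_⟩
  refine (h y x hy hyx).trans (le_of_eq ?_)
  refine Finset.sum_congr ?_ fun _ _ => rfl
  ext p
  simp only [Finset.mem_filter, and_true]

theorem mean_mono {L L' : Type} [Field L] [NumberField L] [Field L'] [NumberField L'] {J J' : ℕ → Prop} (m : ℕ)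
    (h : ∀ p : ℕ, p.Prime → m < p → D1 L' p → J' p → D1 L p ∧ J p) (hJ : Mean L' J') : Mean L J := by
  classical
  obtain ⟨w, C, hw, h1⟩ := hJ
  refine ⟨w, C + ∑ p ∈ range (m + 1), Real.log p / (p : ℝ), hw, fun y x hy hyx => ?_⟩
  have h2 := h1 y x hy hyx
  have h3 : ∑ p ∈ (Ioc ⌊y⌋₊ ⌊x⌋₊).filter (fun p => p.Prime ∧ D1 L' p ∧ J' p), Real.log p / (p : ℝ) ≤
      ∑ p ∈ (Ioc ⌊y⌋₊ ⌊x⌋₊).filter (fun p => p.Prime ∧ D1 L p ∧ J p) ∪ range (m + 1), Real.log p / (p : ℝ) := by
    refine Finset.sum_le_sum_of_subset_of_nonneg ?_ fun p _ _ => BB2_nonneg p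
    intro p hp
    obtain ⟨hp1, hp2, hp3, hp4⟩ := Finset.mem_filter.1 hp
    rw [Finset.mem_union]
    by_cases hm : m < p
    · exact Or.inl (Finset.mem_filter.2 ⟨hp1, hp2, h p hp2 hm hp3 hp4⟩)
    · exact Or.inr (Finset.mem_range.2 (by omega))
  have h4 : ∑ p ∈ (Ioc ⌊y⌋₊ ⌊x⌋₊).filter (fun p => p.Prime ∧ D1 L p ∧ J p) ∪ range (m + 1), Real.log p / (p : ℝ) ≤
      ∑ p ∈ (Ioc ⌊y⌋₊ ⌊x⌋₊).filter (fun p => p.Prime ∧ D1 L p ∧ J p), Real.log p / (p : ℝ) +
        ∑ p ∈ range (m + 1), Real.log p / (p : ℝ) := by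
    rw [← Finset.sum_union_inter]
    exact le_add_of_nonneg_right (Finset.sum_nonneg fun p _ => BB2_nonneg p)
  linarith

theorem d1_down {L L' : Type} [Field L] [NumberField L] [Field L'] [NumberField L'] [Algebra L L'] {p : ℕ}
    (hp : p.Prime) (h : D1 L' p) : D1 L p := by
  obtain ⟨Q, hQ⟩ := h
  have hc : Nat.card (𝓞 L' ⧸ Q) = p := by
    rw [← hQ, Ideal.absNorm_apply, Submodule.cardQuot_apply]
  refine ⟨Q.comap (algebraMap (𝓞 L) (𝓞 L')), ?_⟩
  rw [Ideal.absNorm_apply, Submodule.cardQuot_apply]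
  have hfin : Finite (𝓞 L' ⧸ Q) := Nat.finite_of_card_ne_zero (by rw [hc]; exact hp.ne_zero)
  have hinj := Ideal.quotientMap_injective (I := Q) (f := algebraMap (𝓞 L) (𝓞 L'))
  have hd : Nat.card (𝓞 L ⧸ Q.comap (algebraMap (𝓞 L) (𝓞 L'))) ∣ p := by
    rw [← hc]
    exact AddSubgroup.card_dvd_of_injective
      (Ideal.quotientMap Q (algebraMap (𝓞 L) (𝓞 L')) le_rfl).toAddMonoidHom hinj
  rcases (Nat.dvd_prime hp).1 hd with h1 | h1
  · exfalso
    have h2 : Subsingleton (𝓞 L ⧸ Q.comap (algebraMap (𝓞 L) (𝓞 L'))) := (Nat.card_eq_one_iff_unique.1 h1).1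
    have h3 : Q.comap (algebraMap (𝓞 L) (𝓞 L')) = ⊤ := Ideal.Quotient.subsingleton_iff.1 h2
    have h4 : Q = ⊤ := (Ideal.comap_eq_top_iff).1 h3
    rw [h4, Ideal.absNorm_top] at hQ
    exact hp.one_lt.ne hQ
  · exact h1

theorem d1_sq {L : Type} [Field L] [NumberField L] {α : L} {D : ℤ} (hα : α ^ 2 = ((D : ℤ) : L)) {p : ℕ} (hp : p.Prime)
    (h : D1 L p) : IsSquare ((D : ℤ) : ZMod p) := by
  classical
  obtain ⟨P, hP⟩ := h
  have hc : Nat.card (𝓞 L ⧸ P) = p := by
    rw [← hP, Ideal.absNorm_apply, Submodule.cardQuot_apply]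
  have hfin : Finite (𝓞 L ⧸ P) := Nat.finite_of_card_ne_zero (by rw [hc]; exact hp.ne_zero)
  let _ : Fintype (𝓞 L ⧸ P) := Fintype.ofFinite _
  have hc' : Fintype.card (𝓞 L ⧸ P) = p := by
    rw [← hc, Nat.card_eq_fintype_card]
  let e : ZMod p ≃+* (𝓞 L ⧸ P) := ZMod.ringEquivOfPrime _ hp hc'
  have hint : IsIntegral ℤ α := by
    refine ⟨Polynomial.X ^ 2 - Polynomial.C D, Polynomial.monic_X_pow_sub_C D two_ne_zero, ?_⟩
    rw [Polynomial.eval₂_sub, Polynomial.eval₂_pow, Polynomial.eval₂_X, Polynomial.eval₂_C, hα]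
    simp
  obtain ⟨a, ha⟩ : ∃ a : 𝓞 L, a ^ 2 = ((D : ℤ) : 𝓞 L) := by
    refine ⟨⟨α, hint⟩, ?_⟩
    apply RingOfIntegers.ext
    push_cast
    exact hα
  have h1 : (e.symm (Ideal.Quotient.mk P a)) ^ 2 = ((D : ℤ) : ZMod p) := by
    rw [← map_pow, ← map_pow, ha]
    simp
  exact ⟨_, by rw [← h1, sq]⟩

private theorem BB2_four {p : ℕ} (hp : p.Prime) (h : ¬ IsSquare (((-1 : ℤ) : ℤ) : ZMod p)) : p % 4 = 3 := by
  have : Fact p.Prime := ⟨hp⟩
  by_contra h1
  apply h
  have h2 := (ZMod.exists_sq_eq_neg_one_iff (p := p)).2 h1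
  have h3 : (((-1 : ℤ) : ℤ) : ZMod p) = -1 := by push_cast; rfl
  rw [h3]
  exact h2

private theorem BB2_three {p : ℕ} (hp : p.Prime) (hp3 : 3 < p) (h : ¬ IsSquare (((-3 : ℤ) : ℤ) : ZMod p)) : p % 3 = 2 := by
  have : Fact p.Prime := ⟨hp⟩
  by_contra h1
  have h0 : p % 3 ≠ 0 := by
    intro h2
    have h3 : 3 ∣ p := Nat.dvd_of_mod_eq_zero h2
    rcases (Nat.dvd_prime hp).1 h3 with h4 | h4 <;> omega
  have h2 : 3 ∣ p - 1 := by omega
  apply h
  have h3 : 3 ∣ Nat.card (ZMod p)ˣ := by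
    rw [Nat.card_eq_fintype_card, ZMod.card_units]
    exact h2
  have : Fact (Nat.Prime 3) := ⟨Nat.prime_three⟩
  obtain ⟨u, hu⟩ := exists_prime_orderOf_dvd_card' 3 h3
  have h4 : (u : ZMod p) ^ 3 = 1 := by
    have h5 := pow_orderOf_eq_one u
    rw [hu] at h5
    rw [← Units.val_pow_eq_pow_val, h5, Units.val_one]
  have h5 : (u : ZMod p) ≠ 1 := by
    intro h6
    have h7 : u = 1 := Units.ext h6
    rw [h7, orderOf_one] at hu
    omega
  have h6 : ((u : ZMod p) - 1) * ((u : ZMod p) ^ 2 + u + 1) = 0 := by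
    linear_combination h4
  have h7 : (u : ZMod p) ^ 2 + u + 1 = 0 := by
    rcases mul_eq_zero.1 h6 with h8 | h8
    · exact absurd (sub_eq_zero.1 h8) h5
    · exact h8
  refine ⟨2 * u + 1, ?_⟩
  push_cast
  linear_combination (-4) * h7

private theorem BB2_both {L L' : Type} [Field L] [NumberField L] [Field L'] [NumberField L'] [Algebra L L'] {α : L'}
    (hα : α ^ 2 = ((3 : ℤ) : L')) (h1 : ¬ IsSquare (((-1 : ℤ) : ℤ) : L')) (a b : Prop) : Mean L (JT a b) := by
  refine mean_mono 3 ?_ (mean_inert L' h1)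
  intro p hp hp3 hD hs
  refine ⟨d1_down hp hD, fun _ => BB2_four hp hs, fun _ => BB2_three hp hp3 ?_⟩
  intro h3
  have : Fact p.Prime := ⟨hp⟩
  apply hs
  obtain ⟨s, hs'⟩ := d1_sq hα hp hD
  obtain ⟨r, hr⟩ := h3
  have hs0 : s ≠ 0 := by
    rintro rfl
    rw [mul_zero] at hs'
    have h4 : (p : ℤ) ∣ 3 := (ZMod.intCast_zmod_eq_zero_iff_dvd 3 p).1 hs'
    have h5 : (p : ℤ) ≤ 3 := Int.le_of_dvd (by norm_num) h4
    omega
  refine ⟨r / s, ?_⟩
  rw [div_mul_div_comm, ← hr, ← hs', eq_div_iff (by rw [hs']; exact mul_ne_zero hs0 hs0)]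
  push_cast
  ring

theorem mean_types (L : Type) [Field L] [NumberField L] (a b : Prop) (ha : a → ¬ IsSquare (-1 : L))
    (hb : b → ¬ IsSquare (-3 : L)) : Mean L (JT a b) := by
  by_cases hA : a
  · have h1 : ¬ IsSquare (((-1 : ℤ) : ℤ) : L) := by
      have h2 := ha hA
      push_cast
      exact h2
    by_cases hB : b
    · have h3 : ¬ IsSquare (((-3 : ℤ) : ℤ) : L) := by
        have h2 := hb hB
        push_cast
        exact h2
      by_cases h : IsSquare (((3 : ℤ) : ℤ) : L)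
      · obtain ⟨α, hα⟩ := h
        have hα' : α ^ 2 = (((3 : ℤ) : ℤ) : L) := by rw [hα, sq]
        exact BB2_both (L := L) (L' := L) hα' h1 a b
      · obtain ⟨M, _, _, _, α, hα, hgen, hne⟩ := exists_quad L h
        refine BB2_both (L := L) (L' := M) hα ?_ a b
        rintro ⟨w, hw⟩
        obtain ⟨u, v, rfl⟩ := hgen w
        have e1 : (algebraMap L M) (u ^ 2 + 3 * v ^ 2 + 1) + (algebraMap L M) (2 * u * v) * α = 0 := by
          simp only [map_add, map_mul, map_pow, map_ofNat, map_one]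
          push_cast at hw hα
          linear_combination (-1 : M) * hw - (algebraMap L M v) ^ 2 * hα
        by_cases h0 : u * v = 0
        · have e2 : (algebraMap L M) (u ^ 2 + 3 * v ^ 2 + 1) = 0 := by
            rw [mul_assoc, h0, mul_zero, map_zero, zero_mul, add_zero] at e1
            exact e1
          have e3 : u ^ 2 + 3 * v ^ 2 + 1 = 0 := (map_eq_zero _).1 e2
          rcases mul_eq_zero.1 h0 with h4 | h4
          · rw [h4] at e3
            apply hb hB
            exact ⟨3 * v, by linear_combination (-3) * e3⟩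
          · rw [h4] at e3
            apply ha hA
            exact ⟨u, by linear_combination (-1) * e3⟩
        · have h5 : (2 * u * v : L) ≠ 0 := by
            rw [mul_assoc]
            exact mul_ne_zero two_ne_zero h0
          refine hne (-(u ^ 2 + 3 * v ^ 2 + 1) / (2 * u * v)) ?_
          have h6 : (algebraMap L M) (2 * u * v) ≠ 0 := (map_ne_zero _).2 h5
          rw [map_div₀, map_neg, div_eq_iff h6]
          linear_combination (-1) * e1
    · refine mean_mono 2 ?_ (mean_inert L h1)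
      intro p hp _ hD hs
      exact ⟨hD, fun _ => BB2_four hp hs, fun hb' => absurd hb' hB⟩
  · by_cases hB : b
    · have h3 : ¬ IsSquare (((-3 : ℤ) : ℤ) : L) := by
        have h2 := hb hB
        push_cast
        exact h2
      refine mean_mono 3 ?_ (mean_inert L h3)
      intro p hp hp3 hD hs
      exact ⟨hD, fun ha' => absurd ha' hA, fun _ => BB2_three hp hp3 hs⟩
    · refine mean_mono 0 ?_ (mean_true L)
      intro p _ _ hD _
      exact ⟨hD, fun ha' => absurd ha' hA, fun hb' => absurd hb' hB⟩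

end VK
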