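import Pool.Agent.Lib.MP_10e784_agBS.Defs

/-!
# LEAF BD: supersingular curves with `j = 1728` and `j = 0`

PROOF.  `nz_four`: `p = 3 mod 4`.  For every `x` with `c = x³ + a x`: the number of `y` with `y² = c` plus the number of `y` with `y² = - c` is `2` (`-1` is not a square; `c = 0`: `1 + 1`; `c ≠ 0`: exactly one of `c`, `- c` is a square and it has two roots); the value at `- x` is `- c`.  So
`2 nz = ∑_x (N(c(x)) + N(c(-x))) = ∑_x 2 = 2 p`.  `nz_three`: `p = 2 mod 3`: `x ↦ x³` is bijective on `ZMod p` (`3` is prime to `p - 1`: `powCoprime`-like or: `x³ = y³`, `x y ≠ 0` then `(x / y)³ = 1`, the order divides `3` and `p - 1`), so for every `y` there is exactly one `x` with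
`x³ = y² - b`: the set is in bijection with the `y`.
-/

namespace VK

open MWS

private theorem BD_card {p : ℕ} [Fact p.Prime] (c : ZMod p → ZMod p) :
    Nat.card {z : ZMod p × ZMod p // z.2 ^ 2 = c z.1} =
      ∑ x : ZMod p, Nat.card {y : ZMod p // y ^ 2 = c x} := by
  rw [← Nat.card_sigma]
  exact Nat.card_congr
    { toFun := fun z => ⟨z.1.1, ⟨z.1.2, z.2⟩⟩
      invFun := fun w => ⟨(w.1, w.2.1), w.2.2⟩
      left_inv := fun _ => rfl
      right_inv := fun _ => rfl }

theorem nz_four {p : ℕ} [Fact p.Prime] (hp : p % 4 = 3) (a : ZMod p) : nz a 0 = p := by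
  classical
  have hp2 : ringChar (ZMod p) ≠ 2 := by
    rw [ZMod.ringChar_zmod_n]
    omega
  have h1 : nz a 0 = ∑ x : ZMod p, Nat.card {y : ZMod p // y ^ 2 = x ^ 3 + a * x + 0} :=
    BD_card fun x => x ^ 3 + a * x + 0
  have h2 : ∀ c : ZMod p, (Nat.card {y : ZMod p // y ^ 2 = c} : ℤ) = quadraticChar (ZMod p) c + 1 := by
    intro c
    rw [← quadraticChar_card_sqrts hp2 c, Nat.card_eq_fintype_card, Set.toFinset_card]
    congr 1
  have h3 : quadraticChar (ZMod p) (-1) = -1 := by
    rw [quadraticChar_neg_one hp2, ZMod.card]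
    exact ZMod.χ₄_nat_three_mod_four hp
  have h4 : ∑ x : ZMod p, quadraticChar (ZMod p) (x ^ 3 + a * x + 0) = 0 := by
    have h5 : ∑ x : ZMod p, quadraticChar (ZMod p) (x ^ 3 + a * x + 0) =
        -∑ x : ZMod p, quadraticChar (ZMod p) (x ^ 3 + a * x + 0) := by
      conv_lhs => rw [← Equiv.sum_comp (Equiv.neg (ZMod p))]
      rw [← Finset.sum_neg_distrib]
      refine Finset.sum_congr rfl fun x _ => ?_
      have h6 : (Equiv.neg (ZMod p) x) ^ 3 + a * (Equiv.neg (ZMod p) x) + 0 =
          -1 * (x ^ 3 + a * x + 0) := by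
        rw [Equiv.neg_apply]
        ring
      rw [h6, map_mul, h3, neg_one_mul]
    linarith
  have h7 : (nz a 0 : ℤ) = (p : ℤ) := by
    rw [h1, Nat.cast_sum, Finset.sum_congr rfl fun x _ => h2 (x ^ 3 + a * x + 0),
      Finset.sum_add_distrib, h4, zero_add, Finset.sum_const, Finset.card_univ, ZMod.card,
      nsmul_eq_mul, mul_one]
  exact_mod_cast h7

theorem nz_three {p : ℕ} [Fact p.Prime] (hp : p % 3 = 2) (b : ZMod p) : nz 0 b = p := by
  classical
  have hinj : Function.Injective fun x : ZMod p => x ^ 3 := by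
    intro x y hxy
    have hxy' : x ^ 3 = y ^ 3 := hxy
    by_cases hy : y = 0
    · rw [hy, zero_pow (by norm_num)] at hxy'
      rw [hy]
      exact pow_eq_zero_iff (by norm_num) |>.mp hxy'
    · have hx : x ≠ 0 := by
        rintro rfl
        rw [zero_pow (by norm_num)] at hxy'
        exact hy (pow_eq_zero_iff (by norm_num) |>.mp hxy'.symm)
      have h1 : (x / y) ^ 3 = 1 := by
        rw [div_pow, hxy', div_self (pow_ne_zero 3 hy)]
      have h2 : (x / y) ^ (p - 1) = 1 := ZMod.pow_card_sub_one_eq_one (div_ne_zero hx hy)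
      have h3 : orderOf (x / y) ∣ Nat.gcd 3 (p - 1) :=
        Nat.dvd_gcd (orderOf_dvd_of_pow_eq_one h1) (orderOf_dvd_of_pow_eq_one h2)
      have h4 : Nat.gcd 3 (p - 1) = 1 := by
        have h5 : Nat.Coprime 3 (p - 1) := by
          rw [Nat.Prime.coprime_iff_not_dvd Nat.prime_three]
          omega
        exact h5
      rw [h4, Nat.dvd_one, orderOf_eq_one_iff] at h3
      exact (div_eq_one_iff_eq hy).mp h3
  have hsurj := Finite.injective_iff_surjective.mp hinj
  have h1 : Nat.card {z : ZMod p × ZMod p // z.2 ^ 2 = z.1 ^ 3 + 0 * z.1 + b} =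
      Nat.card (ZMod p) := by
    refine Nat.card_congr (Equiv.ofBijective (fun z => z.1.2) ⟨?_, ?_⟩)
    · rintro ⟨⟨x, y⟩, hz⟩ ⟨⟨x', y'⟩, hz'⟩ h
      have hy : y = y' := h
      subst hy
      have h2 : x ^ 3 = x' ^ 3 := by
        have e1 : y ^ 2 = x ^ 3 + 0 * x + b := hz
        have e2 : y ^ 2 = x' ^ 3 + 0 * x' + b := hz'
        linear_combination e2 - e1
      have h3 : x = x' := hinj h2
      subst h3
      rfl
    · intro y
      obtain ⟨x, hx⟩ := hsurj (y ^ 2 - b)
      have hx' : x ^ 3 = y ^ 2 - b := hx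
      exact ⟨⟨(x, y), by show y ^ 2 = x ^ 3 + 0 * x + b; rw [hx']; ring⟩, rfl⟩
  rw [nz, h1, Nat.card_zmod]

end VK
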