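import Pool.Agent.Lib.MP_17a322_ntVB.Defs
import Pool.Agent.Lib.MP_17a322_ntVB.BD
import Pool.Agent.Lib.MP_17a322_ntLH.T5
import Pool.Agent.Lib.MP_17a322_ntVK.SR1

/-!
# LEAF BI: the fixed curves are supersingular at the primes of their type

PROOF.  For each `l` the element `ds (A' l) (B' l)` of `K` is not `0`: `LVH.unit_pl` gives `M l` such that it and its inverse are in `π.V` for all `π : Pl K p`, `p > M l`; `res_ne` (T9A): its residue is not `0`; `res` commutes with `ds` on `π.V` (`Rd.add`, `Rd.mul`, `Rd.pow`, `res_eq`, `int_mem`, `rd_res`).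
If `B' l = 0`: `res 0 = 0`, `a` holds (`ha`), so `p % 4 = 3` and `nz_four`.  If `A' l = 0`: `b` holds, `p % 3 = 2` and `nz_three`.  `p0 = 1 + ∑ M l`.
-/

namespace VK

open Finset NumberField LVH

theorem ssg_types {K : Type} [Field K] [NumberField K] (L : Type) [Field L] [NumberField L] {h : ℕ}
    (A' B' : Fin h → 𝓞 K) (hd : ∀ l, ds (A' l) (B' l) ≠ 0) (hc : ∀ l, A' l = 0 ∨ B' l = 0) (a b : Prop)
    (ha : ∀ l, B' l = 0 → a) (hb : ∀ l, A' l = 0 → b) : ∃ p0 : ℕ, Ssg L (JT a b) p0 A' B' := by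
  choose M hM using fun l : Fin h => unit_pl K (g := ((ds (A' l) (B' l) : 𝓞 K) : K))
    (fun h0 => hd l (NumberField.RingOfIntegers.coe_eq_zero_iff.1 h0))
  refine ⟨1 + ∑ l, M l, fun p hp hp0 _ hJ π l => ?_⟩
  have : Fact p.Prime := ⟨hp⟩
  have hl : M l < p := by
    have h1 : M l ≤ ∑ l, M l := single_le_sum (f := M) (fun i _ => Nat.zero_le _) (mem_univ l)
    omega
  obtain ⟨u1, u2⟩ := hM l p hp hl π
  have hn0 : ((ds (A' l) (B' l) : 𝓞 K) : K) ≠ 0 := fun h0 => hd l (NumberField.RingOfIntegers.coe_eq_zero_iff.1 h0)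
  have hr := res_ne hn0 u1 u2
  have hA := rd_res (int_mem π (A' l))
  have hB := rd_res (int_mem π (B' l))
  have e4 : Rd π ((4 : ℤ) : K) ((4 : ℤ) : ZMod p) := Rd.int 4
  have e27 : Rd π ((27 : ℤ) : K) ((27 : ℤ) : ZMod p) := Rd.int 27
  have hds : Rd π ((ds (A' l) (B' l) : 𝓞 K) : K) (ds (res π ((A' l : 𝓞 K) : K)) (res π ((B' l : 𝓞 K) : K))) := by
    have h1 := (e4.mul (hA.pow 3)).add (e27.mul (hB.pow 2))
    have h2 : ((ds (A' l) (B' l) : 𝓞 K) : K) = ((4 : ℤ) : K) * ((A' l : 𝓞 K) : K) ^ 3 + ((27 : ℤ) : K) * ((B' l : 𝓞 K) : K) ^ 2 := by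
      unfold ds
      push_cast
      rfl
    have h3 : ds (res π ((A' l : 𝓞 K) : K)) (res π ((B' l : 𝓞 K) : K))
        = ((4 : ℤ) : ZMod p) * res π ((A' l : 𝓞 K) : K) ^ 3 + ((27 : ℤ) : ZMod p) * res π ((B' l : 𝓞 K) : K) ^ 2 := by
      unfold ds
      push_cast
      rfl
    rw [h2, h3]
    exact h1
  refine ⟨?_, ?_⟩
  · rw [← res_eq hds]
    exact hr
  · have hz : res π (0 : K) = 0 := res_eq Rd.zero
    rcases hc l with h0 | h0
    · have h1 : ((A' l : 𝓞 K) : K) = 0 := by rw [h0]; rfl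
      rw [h1, hz]
      exact nz_three (hJ.2 (hb l h0)) _
    · have h1 : ((B' l : 𝓞 K) : K) = 0 := by rw [h0]; rfl
      rw [h1, hz]
      exact nz_four (hJ.1 (ha l h0)) _

end VK
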