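import Pool.Agent.Lib.MP_17a322_ntVB.BH
import Pool.Agent.Lib.MP_17a322_ntVK.SX

/-!
# LEAF BJ2: complete intersections, some of the curves fixed

PROOF.  Copy `inters` of `MP_17a322_ntVK/SX.lean` with `coreV` (BH) in place of `coreK`, `aA ω A' z.1`, `aB ω B' z.1`, `h + g` in place of `fun l => cA ω (z.1 l)`, `..`, `g`.  `ds (aA ..) (aB ..) ≠ 0` in `K` by `Fin.addCases`.
-/

namespace VK

open Finset NumberField LVH

theorem inter_LV (K : Type) [Field K] [NumberField K] [DecidableEq K] (hFR : FactRK K) (hFQ : MWS.FactQ) {J : ℕ → Prop}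
    (hJ : Mean K J) : ∃ c : ℝ, 0 < c ∧ ∀ (e : ℕ) (ω : Module.Basis (Fin e) ℤ (𝓞 K)) (Γ : Subgroup Kˣ), Γ.FG →
    ∀ (n h g m s : ℕ) (ι : Type) [Fintype ι] [DecidableEq ι] [Nonempty ι] (ν : Fin s → ℕ) (E : Fin s → ι → Fin n → ℤ)
    (d : Fin s → Fin (h + g) → ℕ), m ≤ s → (∀ j, 1 ≤ ν j) → m + 1 ≤ ∑ j, ν j → (∀ j l, 1 ≤ d j l) →
    ∀ A' B' : Fin h → 𝓞 K, (∀ l, ds (A' l) (B' l) ≠ 0) → (∃ p1 : ℕ, Ssg K J p1 A' B') → ∃ C : ℝ, ∀ H : ℕ, 1 ≤ H →
    (Nat.card {z : Cv e g × (IxM ι m ν d × Fin e → ℤ) // Box ω H z ∧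
      ComF Γ E (aA ω A' z.1) (aB ω B' z.1) (cf ω z.2)} : ℝ) ≤
      C * (H : ℝ) ^ (e * (Fintype.card (IxM ι m ν d) + 5 * g)) * Real.exp (-(Real.log H) ^ c) := by
  classical
  obtain ⟨c, hc, hcore⟩ := coreV K hFR hFQ K hJ
  refine ⟨c, hc, fun e ω Γ hΓ n h g m s ι _ _ _ ν E d hm hν hs hd A' B' hd' hss => ?_⟩
  obtain ⟨p1, hp1⟩ := hss
  obtain ⟨C, hC⟩ := hcore e ω Γ hΓ n h g A' B' hd' p1 hp1 11 (Fintype.card (IxM ι m ν d × Fin e)) (1 / 20)
    (by norm_num) (by norm_num)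
  refine ⟨C, fun H hH => ?_⟩
  have h1 := hC H hH (IxM ι m ν d × Fin e) rfl (RB (m := m) ν d E ω) (dens_RB K hm ν hν hs d E ω)
  have e1 : Fintype.card (IxM ι m ν d × Fin e) + 5 * e * g = e * (Fintype.card (IxM ι m ν d) + 5 * g) := by
    rw [Fintype.card_prod, Fintype.card_fin]
    ring
  rw [e1] at h1
  refine le_trans ?_ h1
  have h2 := box_le (⇑ω) H
    (fun z : Cv e g × (IxM ι m ν d × Fin e → ℤ) => ComF Γ E (aA ω A' z.1) (aB ω B' z.1) (cf ω z.2))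
    (fun z => ∃ x : Fin n → Kˣ, (∀ l, x l ∈ Γ) ∧ ∃ P : (l : Fin (h + g)) → Pt (aA ω A' z.1 l) (aB ω B' z.1 l),
      AdmK K 11 (RB (m := m) ν d E ω) (A := aA ω A' z.1) (B := aB ω B' z.1) z.2 x P)
    (by
      rintro z hz ⟨x, hx, P, u, hP, hu, hw⟩
      have hds : ∀ l, ds (aA ω A' z.1 l) (aB ω B' z.1 l) ≠ 0 := by
        intro l
        refine Fin.addCases (fun i h0 => ?_) (fun i h0 => ?_) l
        · refine hd' i ?_
          apply RingOfIntegers.coe_injective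
          rw [map_zero]
          rw [← h0]
          simp only [ds, aA, aB, Fin.append_left, map_add, map_mul, map_pow, map_ofNat]
        · refine (hz.1 i).1 ?_
          apply RingOfIntegers.coe_injective
          rw [map_zero]
          rw [← h0]
          simp only [ds, aA, aB, Fin.append_right, cA, cB, map_add, map_mul, map_pow, map_ofNat]
      obtain ⟨Q, hQ⟩ := (pt_iff hds (fun P => ∀ j, sM E (cf ω z.2) (fun l => (x l : K)) P u j = 0)).1 ⟨P, hP, hw⟩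
      exact ⟨x, hx, Q, adm_RB K 11 hd E ω z.2 x Q u hu hQ⟩)
  exact_mod_cast h2

end VK
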