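import Pool.Agent.Lib.MP_17a322_ntVK.SDefs
import Pool.Agent.Lib.MP_17a322_ntVK.Stmt
import Pool.Agent.Lib.MP_10e784_agBS.Defs

/-!
# Ramified covers of `G_m^n × B × E_1 × .. × E_g` with a fixed product `B` of CM elliptic curves: definitions
-/

namespace VK

open Finset NumberField LVH

/-- the coefficients `A` of the `h` fixed curves and of the `g` curves with the coordinates `z` -/
def aA {K : Type} [Field K] [NumberField K] {e h g : ℕ} (ω : Fin e → 𝓞 K) (A' : Fin h → 𝓞 K) (z : Cv e g) :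
    Fin (h + g) → K := Fin.append (fun l => ((A' l : 𝓞 K) : K)) (fun l => cA ω (z l))

/-- the coefficients `B` of the `h` fixed curves and of the `g` curves with the coordinates `z` -/
def aB {K : Type} [Field K] [NumberField K] {e h g : ℕ} (ω : Fin e → 𝓞 K) (B' : Fin h → 𝓞 K) (z : Cv e g) :
    Fin (h + g) → K := Fin.append (fun l => ((B' l : 𝓞 K) : K)) (fun l => cB ω (z l))

open Classical in
/-- a set `J` of prime numbers such that the primes of `J` of degree one in `L` have positive logarithmic density -/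
def Mean (L : Type) [Field L] [NumberField L] (J : ℕ → Prop) : Prop :=
  ∃ w C : ℝ, 0 < w ∧ ∀ y x : ℝ, 2 ≤ y → y ≤ x →
    w * Real.log (x / y) - C ≤
      ∑ p ∈ (Ioc ⌊y⌋₊ ⌊x⌋₊).filter (fun p => p.Prime ∧ D1 L p ∧ J p), Real.log p / (p : ℝ)

open Classical in
/-- the primes `p` of `J` in `(x / Q, x]`, of degree one in `L`, such that all prime factors of `p - 1` and of `p + 1` are
at most `x ^ (1 / A)` -/
noncomputable def SV (L : Type) [Field L] [NumberField L] (J : ℕ → Prop) (A Q x : ℝ) : Finset ℕ :=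
  (Ioc ⌊x / Q⌋₊ ⌊x⌋₊).filter fun p => p.Prime ∧ D1 L p ∧ J p ∧
    ∀ q : ℕ, q.Prime → (q ∣ p - 1 ∨ q ∣ p + 1) → (q : ℝ) ^ A ≤ x

/-- at the primes `p ≥ p0` of `J` of degree one in `L` all the curves `y² = x³ + A'_l x + B'_l` have good reduction with
`p + 1` points, at every place of `K` with residue field the prime field -/
def Ssg {K : Type} [Field K] [NumberField K] (L : Type) [Field L] [NumberField L] (J : ℕ → Prop) (p0 : ℕ) {h : ℕ}
    (A' B' : Fin h → 𝓞 K) : Prop :=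
  ∀ p : ℕ, p.Prime → p0 ≤ p → D1 L p → J p → ∀ (π : Pl K p) (l : Fin h),
    ds (res π ((A' l : 𝓞 K) : K)) (res π ((B' l : 𝓞 K) : K)) ≠ 0 ∧
    MWS.nz (res π ((A' l : 𝓞 K) : K)) (res π ((B' l : 𝓞 K) : K)) = p

/-- the set of the tuples of the box with a point satisfying the local conditions -/
abbrev ZV {K : Type} [Field K] [NumberField K] (L : Type) [Field L] [NumberField L] (p0 : ℕ) {e n h g : ℕ} {ι : Type}
    (ω : Fin e → 𝓞 K) (A' B' : Fin h → 𝓞 K) (Γ : Subgroup Kˣ) (H : ℕ) (R : Loc K n (h + g) ι) : Type :=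
  {z : Cv e g × (ι → ℤ) // Box ω H z ∧ ∃ x : Fin n → Kˣ, (∀ l, x l ∈ Γ) ∧
    ∃ P : (l : Fin (h + g)) → Pt (aA ω A' z.1 l) (aB ω B' z.1 l),
      AdmK L p0 R (A := aA ω A' z.1) (B := aB ω B' z.1) z.2 x P}

/-- the type of the fixed curves: `J` contains `p = 3 mod 4` if `a`, and `p = 2 mod 3` if `b` -/
def JT (a b : Prop) (p : ℕ) : Prop := (a → p % 4 = 3) ∧ (b → p % 3 = 2)

/-- the cyclic cover `γ w^r = F` of `G_m^n × E_1 × .. × E_g`, `E_l : y² = x³ + A_l x + B_l`, has a point with `x_l`, `γ` in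
`Γ`, `P_l ∈ E_l(K)` and `w ∈ K` -/
def CovF {K : Type} [Field K] [NumberField K] {n g : ℕ} {ι : Type} [Fintype ι] {d : Fin g → ℕ} (Γ : Subgroup Kˣ) (r : ℕ)
    (E : ι → Fin n → ℤ) (A B : Fin g → K) (a : IxT ι d → K) : Prop :=
  ∃ x : Fin n → Kˣ, (∀ l, x l ∈ Γ) ∧ ∃ γ ∈ Γ, ∃ (P : Fin g → Option (K × K)) (w : K),
    (∀ l, IsPt (A l) (B l) (P l)) ∧ (γ : K) * w ^ r = ∑ t, a t * bT E (fun l => (x l : K)) P t

/-- the subvariety `F_1 = .. = F_s = 0` of `G_m^n × E_1 × .. × E_g × ℙ^m`, `E_l : y² = x³ + A_l x + B_l`, has a point with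
`x_l ∈ Γ`, `P_l ∈ E_l(K)` -/
def ComF {K : Type} [Field K] [NumberField K] {n m g s : ℕ} {ι : Type} [Fintype ι] {ν : Fin s → ℕ}
    {d : Fin s → Fin g → ℕ} (Γ : Subgroup Kˣ) (E : Fin s → ι → Fin n → ℤ) (A B : Fin g → K) (a : IxM ι m ν d → K) : Prop :=
  ∃ x : Fin n → Kˣ, (∀ l, x l ∈ Γ) ∧ ∃ (P : Fin g → Option (K × K)) (u : Fin (m + 1) → K),
    (∀ l, IsPt (A l) (B l) (P l)) ∧ u ≠ 0 ∧ ∀ j, sM E a (fun l => (x l : K)) P u j = 0

end VK
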