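import Pool.Agent.Lib.MP_17a322_ntVB.BF
import Pool.Agent.Lib.MP_17a322_ntVK.SF4

/-!
# LEAF BG: all the tuples of random curves, the fixed curves in addition

PROOF.  Copy `totalK` of `MP_17a322_ntVK/SF4.lean` (and its private lemmas) with `one_tupleV` (BF) in place of `one_tupleK`; `sum_tuplesK` (SF2) is used as it is (`G p = {z | Gk p U 1 z}`, `g` random curves).  The sum is over the tuples `z : Cv e g` as there; the fixed curves are parameters.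
-/

namespace VK

open Finset NumberField LVH

private theorem BG_mem {ι : Type} [Fintype ι] [DecidableEq ι] {N : ℤ} {c : ι → ℤ} :
    (c ∈ Fintype.piFinset fun _ : ι => Icc (-N) N) ↔ ∀ i, |c i| ≤ N := by
  rw [Fintype.mem_piFinset]
  exact forall_congr' fun i => by rw [mem_Icc, abs_le]

private theorem BG_box {ι : Type} [Fintype ι] [DecidableEq ι] {H : ℕ} (hH : 1 ≤ H) (Q : (ι → ℤ) → Prop) :
    (Nat.card {c : ι → ℤ // (∀ t, |c t| ≤ (H : ℤ)) ∧ Q c} : ℝ) ≤ (4 * (H : ℝ)) ^ Fintype.card ι := by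
  classical
  have h0 : Nat.card {c : ι → ℤ // (∀ t, |c t| ≤ (H : ℤ)) ∧ Q c} =
      ((Fintype.piFinset (fun _ : ι => Icc (-(H : ℤ)) H)).filter Q).card := by
    refine Nat.subtype_card _ fun c => ?_
    rw [mem_filter, BG_mem]
  rw [h0]
  have h1 : ((Fintype.piFinset (fun _ : ι => Icc (-(H : ℤ)) H)).filter Q).card ≤ (4 * H) ^ Fintype.card ι := by
    refine (card_filter_le _ _).trans ?_
    rw [Fintype.card_piFinset, prod_const, card_univ]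
    refine Nat.pow_le_pow_left ?_ _
    rw [Int.card_Icc]
    omega
  exact_mod_cast h1

private theorem BG_fin {ι : Type} [Fintype ι] [DecidableEq ι] (H : ℕ) (Q : (ι → ℤ) → Prop) :
    Finite {c : ι → ℤ // (∀ t, |c t| ≤ (H : ℤ)) ∧ Q c} := by
  let f : {c : ι → ℤ // (∀ t, |c t| ≤ (H : ℤ)) ∧ Q c} → ι → (Icc (-(H : ℤ)) H : Finset ℤ) :=
    fun c t => ⟨c.1 t, mem_Icc.2 (abs_le.1 (c.2.1 t))⟩
  have hf : Function.Injective f := by
    intro a b hab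
    refine Subtype.ext (funext fun t => ?_)
    exact congrArg Subtype.val (congrFun hab t)
  exact Finite.of_injective f hf

private theorem BG_pi {g : ℕ} {α : Type} [DecidableEq α] (l : Fin g) (s u : Finset α) :
    (Fintype.piFinset (fun j : Fin g => if j = l then s else u)).card = s.card * u.card ^ (g - 1) := by
  rw [Fintype.card_piFinset, ← mul_prod_erase univ _ (mem_univ l), if_pos rfl]
  congr 1
  rw [prod_congr rfl (g := fun _ => u.card) (fun j hj => by rw [if_neg (ne_of_mem_erase hj)]), prod_const,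
    card_erase_of_mem (mem_univ l), card_univ, Fintype.card_fin]

private theorem BG_B0 {e H : ℕ} (hH : 1 ≤ H) :
    ((((Fintype.piFinset fun _ : Fin e => Icc (-((H : ℤ) ^ 2)) ((H : ℤ) ^ 2)) ×ˢ
      (Fintype.piFinset fun _ : Fin e => Icc (-((H : ℤ) ^ 3)) ((H : ℤ) ^ 3)) :
        Finset ((Fin e → ℤ) × (Fin e → ℤ))).card : ℕ) : ℝ) ≤ (16 * (H : ℝ) ^ 5) ^ e := by
  have e1 : (Icc (-((H : ℤ) ^ 2)) ((H : ℤ) ^ 2)).card = 2 * H ^ 2 + 1 := by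
    rw [Int.card_Icc]
    have : (H : ℤ) ^ 2 + 1 - -((H : ℤ) ^ 2) = ((2 * H ^ 2 + 1 : ℕ) : ℤ) := by push_cast; ring
    rw [this, Int.toNat_natCast]
  have e2 : (Icc (-((H : ℤ) ^ 3)) ((H : ℤ) ^ 3)).card = 2 * H ^ 3 + 1 := by
    rw [Int.card_Icc]
    have : (H : ℤ) ^ 3 + 1 - -((H : ℤ) ^ 3) = ((2 * H ^ 3 + 1 : ℕ) : ℤ) := by push_cast; ring
    rw [this, Int.toNat_natCast]
  rw [card_product, Fintype.card_piFinset, Fintype.card_piFinset, prod_const, prod_const, card_univ, Fintype.card_fin,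
    e1, e2, ← mul_pow]
  have h1 : (1 : ℝ) ≤ H := by exact_mod_cast hH
  have h2 : (1 : ℝ) ≤ (H : ℝ) ^ 2 := one_le_pow₀ h1
  have h3 : (1 : ℝ) ≤ (H : ℝ) ^ 3 := one_le_pow₀ h1
  push_cast
  refine pow_le_pow_left₀ (by positivity) ?_ e
  calc (2 * (H : ℝ) ^ 2 + 1) * (2 * (H : ℝ) ^ 3 + 1)
      ≤ (4 * (H : ℝ) ^ 2) * (4 * (H : ℝ) ^ 3) :=
        mul_le_mul (by linarith) (by linarith) (by positivity) (by positivity)
    _ = 16 * (H : ℝ) ^ 5 := by ring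

theorem totalV {K : Type} [Field K] [NumberField K] [DecidableEq K] (L : Type) [Field L] [NumberField L] {p0 : ℕ}
    {ι : Type} [Fintype ι] [DecidableEq ι] {e n h g : ℕ} {κ : ℝ} (h0 : 0 ≤ κ) (h1 : κ ≤ 1) {R : Loc K n (h + g) ι}
    (hR : DensK L p0 R κ) (ω : Module.Basis (Fin e) ℤ (𝓞 K)) (A' B' : Fin h → 𝓞 K) (hd' : ∀ l, ds (A' l) (B' l) ≠ 0)
    {C : ℝ} (hC : 0 ≤ C) {k t t' H : ℕ} (hH : 1 ≤ H)
    (hF' : ∀ l, FewK ((A' l : 𝓞 K) : K) ((B' l : 𝓞 K) : K) t)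
    (hbad : (Nat.card {z : (Fin e → ℤ) × (Fin e → ℤ) // (∀ i, |z.1 i| ≤ (H : ℤ) ^ 2) ∧ (∀ i, |z.2 i| ≤ (H : ℤ) ^ 3) ∧
      ds (el ω z.1) (el ω z.2) ≠ 0 ∧ ¬ FewK ((el ω z.1 : 𝓞 K) : K) ((el ω z.2 : 𝓞 K) : K) t} : ℝ) * 2 ^ t ≤
      C * (H : ℝ) ^ (5 * e) * (1 + Real.log H) ^ k)
    {Γ : Subgroup Kˣ} (hΓ : TCls Γ n t') (S : Finset ℕ) (w : (p : ℕ) → Fin e → ZMod p)
    (hw : ∀ p ∈ S, ∃ π : Pl K p, (∀ k, Rd π ((ω k : 𝓞 K) : K) (w p k)) ∧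
      (∀ l, ds (res π ((A' l : 𝓞 K) : K)) (res π ((B' l : 𝓞 K) : K)) ≠ 0 ∧
        MWS.nz (res π ((A' l : 𝓞 K) : K)) (res π ((B' l : 𝓞 K) : K)) = p) ∧
      ∀ γ ∈ Γ, (γ : K) ∈ π.V ∧ (γ : K)⁻¹ ∈ π.V)
    {X U Y b : ℕ} (hS : ∀ p ∈ S, p.Prime ∧ 11 ≤ p ∧ p ≤ X ∧ Y < p ∧ p0 ≤ p ∧ D1 L p ∧
      ∀ q : ℕ, q.Prime → (q ∣ p - 1 ∨ q ∣ p + 1) → q ≤ Y)
    (hU : 1 ≤ U) (hY : 4 * U ≤ Y) (hX : 3 * X ≤ Y * U ^ 1) (he : 3 * X ≤ 2 ^ b) (hq : ∏ p ∈ S, p ≤ H) (γ : ℕ → ℝ)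
    (hγ0 : ∀ p ∈ S, 0 ≤ γ p) (hγ : ∀ p ∈ S, γ p * (p : ℝ) ^ 2 ≤ (Nat.card {z // MWS.Gk p U 1 z} : ℝ)) :
    (Nat.card (ZV L p0 (n := n) (g := g) (ι := ι) ω A' B' Γ H R) : ℝ) ≤
      (4 * (H : ℝ)) ^ Fintype.card ι * (((primorial Y : ℝ) ^ b) ^ (t' + (t + 1) * (h + g)) *
        (((16 * (H : ℝ) ^ 5) ^ e) ^ g * Real.exp (-(κ * ∑ p ∈ S, γ p ^ g))) +
        g * (C * (H : ℝ) ^ (5 * e) * (1 + Real.log H) ^ k / 2 ^ t) * ((16 * (H : ℝ) ^ 5) ^ e) ^ (g - 1)) := by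
  classical
  have hHr : (1 : ℝ) ≤ H := by exact_mod_cast hH
  have hlog : (0 : ℝ) ≤ 1 + Real.log H := by
    have := Real.log_nonneg hHr
    linarith
  set B0 : Finset ((Fin e → ℤ) × (Fin e → ℤ)) :=
    (Fintype.piFinset fun _ : Fin e => Icc (-((H : ℤ) ^ 2)) ((H : ℤ) ^ 2)) ×ˢ
      (Fintype.piFinset fun _ : Fin e => Icc (-((H : ℤ) ^ 3)) ((H : ℤ) ^ 3)) with hB0
  have hmem0 : ∀ z : (Fin e → ℤ) × (Fin e → ℤ), z ∈ B0 ↔ (∀ i, |z.1 i| ≤ (H : ℤ) ^ 2) ∧ ∀ i, |z.2 i| ≤ (H : ℤ) ^ 3 := by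
    intro z
    rw [hB0, mem_product, BG_mem, BG_mem]
  set P0 : Finset (Cv e g) := Fintype.piFinset (fun _ : Fin g => B0) with hP0
  set I : Finset (Cv e g) := P0.filter (fun z => ∀ l, ds (el ω (z l).1) (el ω (z l).2) ≠ 0) with hI
  have hmem : ∀ z : Cv e g, z ∈ I ↔ (∀ l, (∀ i, |(z l).1 i| ≤ (H : ℤ) ^ 2) ∧ ∀ i, |(z l).2 i| ≤ (H : ℤ) ^ 3) ∧
      ∀ l, ds (el ω (z l).1) (el ω (z l).2) ≠ 0 := by
    intro z
    rw [hI, mem_filter, hP0, Fintype.mem_piFinset]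
    exact and_congr_left fun _ => forall_congr' fun l => hmem0 (z l)
  have hfin : ∀ z : Cv e g, Finite {c : ι → ℤ // (∀ i, |c i| ≤ (H : ℤ)) ∧ ∃ x : Fin n → Kˣ, (∀ l, x l ∈ Γ) ∧
      ∃ P : (l : Fin (h + g)) → Pt (aA ω A' z l) (aB ω B' z l),
        AdmK L p0 R (A := aA ω A' z) (B := aB ω B' z) c x P} :=
    fun z => BG_fin H _
  have hW : Nat.card (ZV L p0 (n := n) (g := g) (ι := ι) ω A' B' Γ H R) =
      ∑ z ∈ I, Nat.card {c : ι → ℤ // (∀ i, |c i| ≤ (H : ℤ)) ∧ ∃ x : Fin n → Kˣ, (∀ l, x l ∈ Γ) ∧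
        ∃ P : (l : Fin (h + g)) → Pt (aA ω A' z l) (aB ω B' z l),
          AdmK L p0 R (A := aA ω A' z) (B := aB ω B' z) c x P} := by
    rw [← Finset.sum_coe_sort I (fun z => Nat.card {c : ι → ℤ // (∀ i, |c i| ≤ (H : ℤ)) ∧
      ∃ x : Fin n → Kˣ, (∀ l, x l ∈ Γ) ∧ ∃ P : (l : Fin (h + g)) → Pt (aA ω A' z l) (aB ω B' z l),
          AdmK L p0 R (A := aA ω A' z) (B := aB ω B' z) c x P}),
      ← Nat.card_sigma]
    refine Nat.card_congr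
      { toFun := fun z => ⟨⟨z.1.1, (hmem _).2 ⟨fun l => (z.2.1.1 l).2, fun l => (z.2.1.1 l).1⟩⟩, ⟨z.1.2, z.2.1.2, z.2.2⟩⟩
        invFun := fun z => ⟨(z.1.1, z.2.1), ⟨fun l => ⟨((hmem _).1 z.1.2).2 l, ((hmem _).1 z.1.2).1 l⟩, z.2.2.1⟩, z.2.2.2⟩
        left_inv := fun z => rfl
        right_inv := fun z => rfl }
  rw [hW]
  push_cast
  have h4 : (0 : ℝ) ≤ (4 * (H : ℝ)) ^ Fintype.card ι := by positivity
  rw [← Finset.sum_filter_add_sum_filter_not I (fun z => ∀ l, FewK (cA ω (z l)) (cB ω (z l)) t), mul_add]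
  refine add_le_add ?_ ?_
  · have hsum := sum_tuplesK (g := g) S (fun p hp => (hS p hp).1) hq h0 h1 w
      (fun p hp => by
        haveI : Fact p.Prime := ⟨(hS p hp).1⟩
        obtain ⟨π, hπ, _⟩ := hw p hp
        exact w_ne ω hπ) (fun p => {z | MWS.Gk p U 1 z}) γ hγ0 hγ
    have hone : ∀ z ∈ I.filter (fun z => ∀ l, FewK (cA ω (z l)) (cB ω (z l)) t),
        (Nat.card {c : ι → ℤ // (∀ i, |c i| ≤ (H : ℤ)) ∧ ∃ x : Fin n → Kˣ, (∀ l, x l ∈ Γ) ∧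
          ∃ P : (l : Fin (h + g)) → Pt (aA ω A' z l) (aB ω B' z l),
            AdmK L p0 R (A := aA ω A' z) (B := aB ω B' z) c x P} : ℝ) ≤
        ((primorial Y : ℝ) ^ b) ^ (t' + (t + 1) * (h + g)) * ((4 * (H : ℝ)) ^ Fintype.card ι *
        (1 - κ) ^ (S.filter fun p => ∀ l, (∑ k, (((z l).1 k : ℤ) : ZMod p) * w p k,
          ∑ k, (((z l).2 k : ℤ) : ZMod p) * w p k) ∈ {z | MWS.Gk p U 1 z}).card) := by
      intro z hz
      rw [mem_filter, hmem] at hz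
      have h9 := one_tupleV L h0 h1 hR (fun k => ω k) A' B' hd' z hz.1.2 hF' hz.2 hΓ S w hw hS hU hY hX he hq
      refine h9.trans (le_of_eq ?_)
      congr 3
    refine (sum_le_sum hone).trans ?_
    have hκ : 0 ≤ 1 - κ := by linarith
    calc ∑ z ∈ I.filter (fun z => ∀ l, FewK (cA ω (z l)) (cB ω (z l)) t), ((primorial Y : ℝ) ^ b) ^ (t' + (t + 1) * (h + g)) *
          ((4 * (H : ℝ)) ^ Fintype.card ι *
          (1 - κ) ^ (S.filter fun p => ∀ l, (∑ k, (((z l).1 k : ℤ) : ZMod p) * w p k,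
            ∑ k, (((z l).2 k : ℤ) : ZMod p) * w p k) ∈ {z | MWS.Gk p U 1 z}).card)
        ≤ ∑ z ∈ P0, ((primorial Y : ℝ) ^ b) ^ (t' + (t + 1) * (h + g)) * ((4 * (H : ℝ)) ^ Fintype.card ι *
          (1 - κ) ^ (S.filter fun p => ∀ l, (∑ k, (((z l).1 k : ℤ) : ZMod p) * w p k,
            ∑ k, (((z l).2 k : ℤ) : ZMod p) * w p k) ∈ {z | MWS.Gk p U 1 z}).card) := by
          refine sum_le_sum_of_subset_of_nonneg ((filter_subset _ _).trans (filter_subset _ _)) ?_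
          intro z _ _
          positivity
      _ = ((primorial Y : ℝ) ^ b) ^ (t' + (t + 1) * (h + g)) * ((4 * (H : ℝ)) ^ Fintype.card ι *
          ∑ z ∈ P0, (1 - κ) ^ (S.filter fun p => ∀ l, (∑ k, (((z l).1 k : ℤ) : ZMod p) * w p k,
            ∑ k, (((z l).2 k : ℤ) : ZMod p) * w p k) ∈ {z | MWS.Gk p U 1 z}).card) := by
          rw [mul_sum, mul_sum]
      _ ≤ ((primorial Y : ℝ) ^ b) ^ (t' + (t + 1) * (h + g)) * ((4 * (H : ℝ)) ^ Fintype.card ι *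
          (((16 * (H : ℝ) ^ 5) ^ e) ^ g * Real.exp (-(κ * ∑ p ∈ S, γ p ^ g)))) := by
          refine mul_le_mul_of_nonneg_left (mul_le_mul_of_nonneg_left ?_ h4) (by positivity)
          refine (le_of_eq ?_).trans hsum
          refine sum_congr rfl fun z _ => ?_
          congr 2
      _ = _ := by ring
  · set Bd : Finset ((Fin e → ℤ) × (Fin e → ℤ)) := B0.filter (fun z => ds (el ω z.1) (el ω z.2) ≠ 0 ∧
      ¬ FewK ((el ω z.1 : 𝓞 K) : K) ((el ω z.2 : 𝓞 K) : K) t) with hBd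
    have hbadc : ((Bd.card : ℕ) : ℝ) =
        (Nat.card {z : (Fin e → ℤ) × (Fin e → ℤ) // (∀ i, |z.1 i| ≤ (H : ℤ) ^ 2) ∧ (∀ i, |z.2 i| ≤ (H : ℤ) ^ 3) ∧
          ds (el ω z.1) (el ω z.2) ≠ 0 ∧ ¬ FewK ((el ω z.1 : 𝓞 K) : K) ((el ω z.2 : 𝓞 K) : K) t} : ℝ) := by
      rw [Nat.subtype_card Bd]
      intro z
      rw [hBd, mem_filter, hmem0, and_assoc]
    have hBd' : ((Bd.card : ℕ) : ℝ) ≤ C * (H : ℝ) ^ (5 * e) * (1 + Real.log H) ^ k / 2 ^ t := by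
      rw [le_div_iff₀ (by positivity), hbadc]
      exact hbad
    have hsub : I.filter (fun z => ¬ ∀ l, FewK (cA ω (z l)) (cB ω (z l)) t) ⊆
        univ.biUnion (fun l : Fin g => Fintype.piFinset (fun j : Fin g => if j = l then Bd else B0)) := by
      intro z hz
      rw [mem_filter, hmem] at hz
      obtain ⟨l, hl⟩ := not_forall.1 hz.2
      rw [mem_biUnion]
      refine ⟨l, mem_univ l, Fintype.mem_piFinset.2 fun j => ?_⟩
      by_cases hj : j = l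
      · rw [if_pos hj, hj, hBd, mem_filter, hmem0]
        exact ⟨hz.1.1 l, hz.1.2 l, hl⟩
      · rw [if_neg hj, hmem0]
        exact hz.1.1 j
    have hcard : (((I.filter (fun z => ¬ ∀ l, FewK (cA ω (z l)) (cB ω (z l)) t)).card : ℕ) : ℝ) ≤
        g * (C * (H : ℝ) ^ (5 * e) * (1 + Real.log H) ^ k / 2 ^ t) * ((16 * (H : ℝ) ^ 5) ^ e) ^ (g - 1) := by
      have h5 : (I.filter (fun z => ¬ ∀ l, FewK (cA ω (z l)) (cB ω (z l)) t)).card ≤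
          ∑ _l : Fin g, Bd.card * B0.card ^ (g - 1) := by
        refine (card_le_card hsub).trans (card_biUnion_le.trans (le_of_eq ?_))
        exact sum_congr rfl fun l _ => BG_pi l Bd B0
      rw [sum_const, card_univ, Fintype.card_fin, smul_eq_mul] at h5
      have h6 : (((I.filter (fun z => ¬ ∀ l, FewK (cA ω (z l)) (cB ω (z l)) t)).card : ℕ) : ℝ) ≤
          (g : ℝ) * ((Bd.card : ℝ) * (B0.card : ℝ) ^ (g - 1)) := by exact_mod_cast h5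
      refine h6.trans ?_
      rw [mul_assoc]
      refine mul_le_mul_of_nonneg_left ?_ (Nat.cast_nonneg g)
      exact mul_le_mul hBd' (pow_le_pow_left₀ (Nat.cast_nonneg _) (BG_B0 hH) _) (by positivity)
        ((Nat.cast_nonneg _).trans hBd')
    calc ∑ z ∈ I.filter (fun z => ¬ ∀ l, FewK (cA ω (z l)) (cB ω (z l)) t),
          (Nat.card {c : ι → ℤ // (∀ i, |c i| ≤ (H : ℤ)) ∧ ∃ x : Fin n → Kˣ, (∀ l, x l ∈ Γ) ∧
            ∃ P : (l : Fin (h + g)) → Pt (aA ω A' z l) (aB ω B' z l),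
              AdmK L p0 R (A := aA ω A' z) (B := aB ω B' z) c x P} : ℝ)
        ≤ ∑ _z ∈ I.filter (fun z => ¬ ∀ l, FewK (cA ω (z l)) (cB ω (z l)) t), (4 * (H : ℝ)) ^ Fintype.card ι :=
          sum_le_sum fun z _ => BG_box hH _
      _ = (4 * (H : ℝ)) ^ Fintype.card ι *
          ((I.filter (fun z => ¬ ∀ l, FewK (cA ω (z l)) (cB ω (z l)) t)).card : ℝ) := by
          rw [sum_const, nsmul_eq_mul, mul_comm]
      _ ≤ _ := mul_le_mul_of_nonneg_left hcard h4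

end VK
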