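import Pool.Agent.Lib.MP_17a322_ntVK.Defs

/-!
# LEAF BE: the fixed curves have few classes modulo `2`

PROOF.  `few_mono`: compose with a surjection `Fin (2 ^ t') → Fin (2 ^ t)` (or `r' i = if h : i < 2 ^ t then r ⟨i, h⟩ else 0`).  `few_fix`: let `ω` be a `ℤ`-basis of `𝓞 K` indexed by `Fin e` (`RingOfIntegers.basis` reindexed, `Fintype.equivFin`, or `Module.finBasis ℤ (𝓞 K)`: free and
finite), `α`, `β` the coordinates of `A`, `B`, `H ≥ 1` a bound of all `|α_i|`, `|β_i|`, so `|α_i| ≤ H²`, `|β_i| ≤ H³`, `el ω α = A`, `el ω β = B`.  `FactRK` for `e`, `ω` gives `C`, `k`.  If `FewK A B t` is false the set in `FactRK` for `H` and `t` is not empty, and it is finite (it is in a box; or: `Nat.card = 0`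
needs infinite or empty), so its cardinality is at least `1` and `2 ^ t ≤ C H^(5e) (1 + log H)^k`; this is false for large `t`.  `few_all`: the maximum (the sum) of the `t`'s and `few_mono`.
-/

namespace VK

open Finset NumberField

theorem few_mono {F : Type} [Field F] [DecidableEq F] {a b : F} {t t' : ℕ} (h : t ≤ t') (hF : FewK a b t) :
    FewK a b t' := by
  obtain ⟨r, hr⟩ := hF
  have h2 : 2 ^ t ≤ 2 ^ t' := Nat.pow_le_pow_right (by norm_num) h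
  refine ⟨fun i => if hi : (i : ℕ) < 2 ^ t then r ⟨i, hi⟩ else 0, fun P => ?_⟩
  obtain ⟨i, Q, hP⟩ := hr P
  refine ⟨⟨i, lt_of_lt_of_le i.2 h2⟩, Q, ?_⟩
  have h3 : (fun i : Fin (2 ^ t') => if hi : (i : ℕ) < 2 ^ t then r ⟨i, hi⟩ else 0)
      ⟨i, lt_of_lt_of_le i.2 h2⟩ = r i := dif_pos i.2
  rw [h3]
  exact hP

private theorem BE_fin {e : ℕ} (a b : ℤ) (Q : (Fin e → ℤ) × (Fin e → ℤ) → Prop) :
    Finite {z : (Fin e → ℤ) × (Fin e → ℤ) // (∀ i, |z.1 i| ≤ a) ∧ (∀ i, |z.2 i| ≤ b) ∧ Q z} := by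
  let f : {z : (Fin e → ℤ) × (Fin e → ℤ) // (∀ i, |z.1 i| ≤ a) ∧ (∀ i, |z.2 i| ≤ b) ∧ Q z} →
      (Fin e → (Icc (-a) a : Finset ℤ)) × (Fin e → (Icc (-b) b : Finset ℤ)) :=
    fun z => (fun i => ⟨z.1.1 i, mem_Icc.2 (abs_le.1 (z.2.1 i))⟩, fun i => ⟨z.1.2 i, mem_Icc.2 (abs_le.1 (z.2.2.1 i))⟩)
  have hf : Function.Injective f := by
    intro x y hxy
    have h1 := congrArg Prod.fst hxy
    have h2 := congrArg Prod.snd hxy
    refine Subtype.ext (Prod.ext (funext fun i => ?_) (funext fun i => ?_))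
    · exact congrArg Subtype.val (congrFun h1 i)
    · exact congrArg Subtype.val (congrFun h2 i)
  exact Finite.of_injective f hf

theorem few_fix (K : Type) [Field K] [NumberField K] [DecidableEq K] (hFR : FactRK K) (A B : 𝓞 K) (hd : ds A B ≠ 0) :
    ∃ t : ℕ, FewK ((A : 𝓞 K) : K) ((B : 𝓞 K) : K) t := by
  classical
  by_contra hno
  have hno' : ∀ t : ℕ, ¬ FewK ((A : 𝓞 K) : K) ((B : 𝓞 K) : K) t := fun t ht => hno ⟨t, ht⟩
  let ω : Module.Basis (Fin (Fintype.card (Module.Free.ChooseBasisIndex ℤ (𝓞 K)))) ℤ (𝓞 K) :=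
    (RingOfIntegers.basis K).reindex (Fintype.equivFin _)
  have hel : ∀ x : 𝓞 K, el ω (fun i => ω.repr x i) = x := by
    intro x
    unfold el
    refine Eq.trans (Finset.sum_congr rfl fun i _ => ?_) (ω.sum_repr x)
    rw [zsmul_eq_mul]
  obtain ⟨C, k, hC⟩ := hFR _ ω
  set H : ℕ := 1 + (∑ i, (ω.repr A i).natAbs + ∑ i, (ω.repr B i).natAbs) with hH
  have hH1 : 1 ≤ H := by
    rw [hH]
    exact Nat.le_add_right _ _
  have hA : ∀ i, |ω.repr A i| ≤ (H : ℤ) ^ 2 := by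
    intro i
    have h1 : (ω.repr A i).natAbs ≤ ∑ i, (ω.repr A i).natAbs :=
      Finset.single_le_sum (f := fun i => (ω.repr A i).natAbs) (fun _ _ => Nat.zero_le _) (Finset.mem_univ i)
    have h2 : (ω.repr A i).natAbs ≤ H := by
      rw [hH]
      omega
    have h3 : (ω.repr A i).natAbs ≤ H ^ 2 := h2.trans (Nat.le_self_pow (by norm_num) H)
    rw [Int.abs_eq_natAbs]
    exact_mod_cast h3
  have hB : ∀ i, |ω.repr B i| ≤ (H : ℤ) ^ 3 := by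
    intro i
    have h1 : (ω.repr B i).natAbs ≤ ∑ i, (ω.repr B i).natAbs :=
      Finset.single_le_sum (f := fun i => (ω.repr B i).natAbs) (fun _ _ => Nat.zero_le _) (Finset.mem_univ i)
    have h2 : (ω.repr B i).natAbs ≤ H := by
      rw [hH]
      omega
    have h3 : (ω.repr B i).natAbs ≤ H ^ 3 := h2.trans (Nat.le_self_pow (by norm_num) H)
    rw [Int.abs_eq_natAbs]
    exact_mod_cast h3
  have key : ∀ t : ℕ, (2 : ℝ) ^ t ≤
      C * (H : ℝ) ^ (5 * Fintype.card (Module.Free.ChooseBasisIndex ℤ (𝓞 K))) * (1 + Real.log H) ^ k := by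
    intro t
    have h1 := hC H hH1 t
    have hfin := BE_fin ((H : ℤ) ^ 2) ((H : ℤ) ^ 3)
      (fun z => ds (el ω z.1) (el ω z.2) ≠ 0 ∧ ¬ FewK ((el ω z.1 : 𝓞 K) : K) ((el ω z.2 : 𝓞 K) : K) t)
    have hne : Nonempty {z : (Fin (Fintype.card (Module.Free.ChooseBasisIndex ℤ (𝓞 K))) → ℤ) ×
        (Fin (Fintype.card (Module.Free.ChooseBasisIndex ℤ (𝓞 K))) → ℤ) //
        (∀ i, |z.1 i| ≤ (H : ℤ) ^ 2) ∧ (∀ i, |z.2 i| ≤ (H : ℤ) ^ 3) ∧
        ds (el ω z.1) (el ω z.2) ≠ 0 ∧ ¬ FewK ((el ω z.1 : 𝓞 K) : K) ((el ω z.2 : 𝓞 K) : K) t} := by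
      refine ⟨⟨(fun i => ω.repr A i, fun i => ω.repr B i), hA, hB, ?_, ?_⟩⟩
      · show ds (el ω (fun i => ω.repr A i)) (el ω (fun i => ω.repr B i)) ≠ 0
        rw [hel, hel]
        exact hd
      · show ¬ FewK ((el ω (fun i => ω.repr A i) : 𝓞 K) : K) ((el ω (fun i => ω.repr B i) : 𝓞 K) : K) t
        rw [hel, hel]
        exact hno' t
    have h2 : 0 < Nat.card {z : (Fin (Fintype.card (Module.Free.ChooseBasisIndex ℤ (𝓞 K))) → ℤ) ×
        (Fin (Fintype.card (Module.Free.ChooseBasisIndex ℤ (𝓞 K))) → ℤ) //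
        (∀ i, |z.1 i| ≤ (H : ℤ) ^ 2) ∧ (∀ i, |z.2 i| ≤ (H : ℤ) ^ 3) ∧
        ds (el ω z.1) (el ω z.2) ≠ 0 ∧ ¬ FewK ((el ω z.1 : 𝓞 K) : K) ((el ω z.2 : 𝓞 K) : K) t} :=
      Nat.card_pos_iff.2 ⟨hne, hfin⟩
    have h3 : (1 : ℝ) ≤ (Nat.card {z : (Fin (Fintype.card (Module.Free.ChooseBasisIndex ℤ (𝓞 K))) → ℤ) ×
        (Fin (Fintype.card (Module.Free.ChooseBasisIndex ℤ (𝓞 K))) → ℤ) //
        (∀ i, |z.1 i| ≤ (H : ℤ) ^ 2) ∧ (∀ i, |z.2 i| ≤ (H : ℤ) ^ 3) ∧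
        ds (el ω z.1) (el ω z.2) ≠ 0 ∧ ¬ FewK ((el ω z.1 : 𝓞 K) : K) ((el ω z.2 : 𝓞 K) : K) t} : ℝ) := by
      exact_mod_cast h2
    refine le_trans ?_ h1
    exact le_mul_of_one_le_left (by positivity) h3
  obtain ⟨t, ht⟩ := pow_unbounded_of_one_lt
    (C * (H : ℝ) ^ (5 * Fintype.card (Module.Free.ChooseBasisIndex ℤ (𝓞 K))) * (1 + Real.log H) ^ k)
    (one_lt_two : (1 : ℝ) < 2)
  exact absurd (key t) (not_le.2 ht)

theorem few_all (K : Type) [Field K] [NumberField K] [DecidableEq K] (hFR : FactRK K) {h : ℕ} (A' B' : Fin h → 𝓞 K)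
    (hd : ∀ l, ds (A' l) (B' l) ≠ 0) :
    ∃ t : ℕ, ∀ l, FewK ((A' l : 𝓞 K) : K) ((B' l : 𝓞 K) : K) t := by
  choose t ht using fun l => few_fix K hFR (A' l) (B' l) (hd l)
  refine ⟨∑ l, t l, fun l => few_mono ?_ (ht l)⟩
  exact Finset.single_le_sum (f := t) (fun _ _ => Nat.zero_le _) (Finset.mem_univ l)

end VK
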