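import Mathlib

/-!
# LEAF BA1: a quadratic extension

PROOF.  `X² - D` is irreducible over `L` (`X_pow_sub_C_irreducible_of_prime Nat.prime_two`, `D` is not a square in `L`).  Let `a` be a square root of `D` in `AlgebraicClosure L` and `M` the intermediate field `L⟮a⟯` (or `AdjoinRoot (X² - C D)`, `Fact` irreducible);
`M` is finite over `L` (`a` is integral), so finite over `ℚ` (`FiniteDimensional.trans ℚ L M`), a number field.  Every element is `u + v a`: e.g. the set of these elements is closed under multiplication, it contains `L` and `a`, and it is the adjoin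
(`IntermediateField.adjoin_simple_toSubalgebra_of_integral`, `Algebra.adjoin_induction`), or by the power basis of dimension two (`IntermediateField.adjoin.powerBasis`, minimal polynomial `X² - D`), or for `AdjoinRoot` by `AdjoinRoot.mk_surjective` and `modByMonic`.
`a` is not in the image of `L` as `D` is not a square.
-/

namespace VK

private theorem BA1_quad (L : Type) [Field L] [NumberField L] {D : ℤ} (hD : ¬ IsSquare ((D : ℤ) : L))
    (f : Polynomial L) (hf : f = Polynomial.X ^ 2 - Polynomial.C ((D : ℤ) : L)) (hirr : Irreducible f) :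
    ∃ (M : Type) (_ : Field M) (_ : NumberField M) (_ : Algebra L M) (α : M), α ^ 2 = ((D : ℤ) : M) ∧
      (∀ x : M, ∃ u v : L, x = algebraMap L M u + algebraMap L M v * α) ∧ ∀ u : L, algebraMap L M u ≠ α := by
  classical
  have : Fact (Irreducible f) := ⟨hirr⟩
  have hmonic : f.Monic := by
    rw [hf]
    exact Polynomial.monic_X_pow_sub_C _ (by norm_num)
  have hdeg : f.natDegree = 2 := by
    rw [hf]
    exact Polynomial.natDegree_X_pow_sub_C
  have hfin : Module.Finite L (AdjoinRoot f) := (AdjoinRoot.powerBasis hirr.ne_zero).finite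
  have hch : CharZero (AdjoinRoot f) :=
    charZero_of_injective_algebraMap (algebraMap L (AdjoinRoot f)).injective
  have hnf : NumberField (AdjoinRoot f) :=
    { to_charZero := hch
      to_finiteDimensional := Module.Finite.trans L _ }
  have hroot : (AdjoinRoot.root f) ^ 2 = ((D : ℤ) : AdjoinRoot f) := by
    have h1 : Polynomial.eval₂ (AdjoinRoot.of f) (AdjoinRoot.root f)
        (Polynomial.X ^ 2 - Polynomial.C ((D : ℤ) : L)) = 0 := by
      rw [← hf]
      exact AdjoinRoot.eval₂_root f
    rw [Polynomial.eval₂_sub, Polynomial.eval₂_pow, Polynomial.eval₂_X, Polynomial.eval₂_C,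
      sub_eq_zero] at h1
    rw [h1]
    exact map_intCast _ _
  refine ⟨AdjoinRoot f, inferInstance, hnf, inferInstance, AdjoinRoot.root f, hroot, ?_, ?_⟩
  · intro x
    obtain ⟨p, rfl⟩ := AdjoinRoot.mk_surjective x
    have h1 : AdjoinRoot.mk f p = AdjoinRoot.mk f (p %ₘ f) := by
      rw [AdjoinRoot.mk_eq_mk]
      refine ⟨p /ₘ f, ?_⟩
      rw [sub_eq_iff_eq_add, add_comm]
      exact (Polynomial.modByMonic_add_div p f).symm
    have h2 : (p %ₘ f).natDegree ≤ 1 := by
      have h3 := Polynomial.natDegree_modByMonic_lt p hmonic (by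
        intro h
        rw [h, Polynomial.natDegree_one] at hdeg
        omega)
      omega
    obtain ⟨v, u, h3⟩ := Polynomial.exists_eq_X_add_C_of_natDegree_le_one h2
    refine ⟨u, v, ?_⟩
    rw [h1, h3, map_add, map_mul, AdjoinRoot.mk_C, AdjoinRoot.mk_C, AdjoinRoot.mk_X, add_comm]
    rfl
  · intro u hu
    apply hD
    refine ⟨u, ?_⟩
    apply (algebraMap L (AdjoinRoot f)).injective
    rw [map_mul, hu, ← sq, hroot]
    exact map_intCast _ _

theorem exists_quad (L : Type) [Field L] [NumberField L] {D : ℤ} (hD : ¬ IsSquare ((D : ℤ) : L)) :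
    ∃ (M : Type) (_ : Field M) (_ : NumberField M) (_ : Algebra L M) (α : M), α ^ 2 = ((D : ℤ) : M) ∧
      (∀ x : M, ∃ u v : L, x = algebraMap L M u + algebraMap L M v * α) ∧ ∀ u : L, algebraMap L M u ≠ α := by
  apply BA1_quad L hD (Polynomial.X ^ 2 - Polynomial.C ((D : ℤ) : L)) rfl
  apply X_pow_sub_C_irreducible_of_prime Nat.prime_two
  intro b hb
  exact hD ⟨b, by rw [← hb, sq]⟩

end VK
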