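import Mathlib

/-!
# LEAF BA2: the two prime ideals of degree one above a prime ideal of degree one which splits

PROOF.  Coordinates: every `x : M` is `u + v α` with unique `u, v : L`.  If `x` is integral then `2 u` and `2 D v` are integral: `2 u` is the trace (`Algebra.trace L M`, `Algebra.isIntegral_trace`; the trace of `u + v α` is `2 u`: the basis `1, α` has the
matrix `(u, v D; v, u)`), or directly: `σ x = u - v α` is integral too (`σ` the `L`-automorphism `α ↦ - α`), `2 u = x + σ x`, `2 v D = (x - σ x) α`.  So `2 D x = a + b α` with `a, b` in the ring of integers of `L`.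
Let `p` have the square root `s : ℤ` of `D` modulo `p`, `P` of norm `p` (so `P` is prime, `𝓞 L / P` has `p` elements, `p ∈ P` and every element of `𝓞 L` is congruent to an integer modulo `P`).  `I = P 𝓞_M + (α - s)`.  (1) `I ≠ ⊤`: otherwise multiply `1 = ∑ a_i β_i + (α - s) γ`,
`a_i ∈ P`, by `α + s`: `α + s ∈ P 𝓞_M` because `α² - s² = D - s² ∈ (p)`; but `2 D P 𝓞_M ⊆ P + P α`, so `2 D ∈ P` (coordinates are unique), contradiction to `p ∤ 2 D`.  (2) Let `Q` be a maximal ideal containing `I`.  Modulo `Q`: `2 D x = a + b α = a + b s`, so `2 D x` and then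
`x` is congruent to an integer: `ℤ → 𝓞_M / Q` is surjective, `p ∈ Q`: `absNorm Q = p` (`Ideal.absNorm_eq_one_iff`, the quotient is a quotient of `ZMod p` and not trivial; `Submodule.cardQuot_apply`, `Ideal.absNorm_apply`).  (3) `Q ∩ 𝓞_L` is a proper ideal containing the maximal ideal `P`.
(4) The same with `- s` gives `Q₂ ∋ α + s`; if `Q₁ = Q₂` then `2 s ∈ Q₁ ∩ ℤ = (p)`, but `p ∤ 2` and `s² = D` is not `0` modulo `p`.
-/

namespace VK

open NumberField

/-- coordinates are unique -/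
private theorem BA2_uniq {L M : Type} [Field L] [Field M] [Algebra L M] {α : M}
    (hne : ∀ u : L, algebraMap L M u ≠ α) {a b a' b' : L}
    (h : algebraMap L M a + algebraMap L M b * α = algebraMap L M a' + algebraMap L M b' * α) : a = a' ∧ b = b' := by
  have hb : b = b' := by
    by_contra hbb
    have h1 : algebraMap L M (b - b') ≠ 0 := by
      rw [map_ne_zero]
      exact sub_ne_zero.2 hbb
    apply hne ((a' - a) / (b - b'))
    rw [map_div₀, div_eq_iff h1, map_sub, map_sub]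
    linear_combination (-1 : M) * h
  subst hb
  refine ⟨?_, rfl⟩
  exact (algebraMap L M).injective (add_right_cancel h)

/-- the conjugation -/
private theorem BA2_conj {L M : Type} [Field L] [Field M] [Algebra L M] {α : M} {D : ℤ}
    (hα : α ^ 2 = ((D : ℤ) : M)) (hgen : ∀ x : M, ∃ u v : L, x = algebraMap L M u + algebraMap L M v * α)
    (hne : ∀ u : L, algebraMap L M u ≠ α) :
    ∃ σ : M →+* M, ∀ u v : L, σ (algebraMap L M u + algebraMap L M v * α) = algebraMap L M u - algebraMap L M v * α := by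
  choose U V hUV using hgen
  have key : ∀ u v : L, U (algebraMap L M u + algebraMap L M v * α) = u ∧
      V (algebraMap L M u + algebraMap L M v * α) = v := fun u v => by
    have h := BA2_uniq hne (hUV (algebraMap L M u + algebraMap L M v * α))
    exact ⟨h.1.symm, h.2.symm⟩
  have hD : algebraMap L M ((D : ℤ) : L) = α ^ 2 := by rw [hα, map_intCast]
  have k1 : U 1 = 1 ∧ V 1 = 0 := by
    have h := key 1 0
    rwa [map_one, map_zero, zero_mul, add_zero] at h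
  have k0 : U 0 = 0 ∧ V 0 = 0 := by
    have h := key 0 0
    rwa [map_zero, zero_mul, add_zero] at h
  have kadd : ∀ x y : M, U (x + y) = U x + U y ∧ V (x + y) = V x + V y := by
    intro x y
    have h := key (U x + U y) (V x + V y)
    have e : algebraMap L M (U x + U y) + algebraMap L M (V x + V y) * α = x + y := by
      rw [map_add, map_add]
      linear_combination (-1 : M) * hUV x - hUV y
    rwa [e] at h
  have kmul : ∀ x y : M, U (x * y) = U x * U y + V x * V y * ((D : ℤ) : L) ∧ V (x * y) = U x * V y + V x * U y := by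
    intro x y
    have h := key (U x * U y + V x * V y * ((D : ℤ) : L)) (U x * V y + V x * U y)
    have e : algebraMap L M (U x * U y + V x * V y * ((D : ℤ) : L)) + algebraMap L M (U x * V y + V x * U y) * α =
        x * y := by
      rw [map_add, map_add, map_mul, map_mul, map_mul, map_mul, map_mul, hD]
      have h3 : x * y = (algebraMap L M (U x) + algebraMap L M (V x) * α) *
          (algebraMap L M (U y) + algebraMap L M (V y) * α) := by rw [← hUV x, ← hUV y]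
      rw [h3]
      ring
    rwa [e] at h
  refine ⟨{ toFun := fun x => algebraMap L M (U x) - algebraMap L M (V x) * α
            map_one' := ?_
            map_mul' := ?_
            map_zero' := ?_
            map_add' := ?_ }, ?_⟩
  · show algebraMap L M (U 1) - algebraMap L M (V 1) * α = 1
    rw [k1.1, k1.2, map_one, map_zero, zero_mul, sub_zero]
  · intro x y
    show algebraMap L M (U (x * y)) - algebraMap L M (V (x * y)) * α =
      (algebraMap L M (U x) - algebraMap L M (V x) * α) * (algebraMap L M (U y) - algebraMap L M (V y) * α)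
    rw [(kmul x y).1, (kmul x y).2, map_add, map_add, map_mul, map_mul, map_mul, map_mul, map_mul, hD]
    ring
  · show algebraMap L M (U 0) - algebraMap L M (V 0) * α = 0
    rw [k0.1, k0.2, map_zero, zero_mul, sub_zero]
  · intro x y
    show algebraMap L M (U (x + y)) - algebraMap L M (V (x + y)) * α =
      (algebraMap L M (U x) - algebraMap L M (V x) * α) + (algebraMap L M (U y) - algebraMap L M (V y) * α)
    rw [(kadd x y).1, (kadd x y).2, map_add, map_add]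
    ring
  · intro u v
    show algebraMap L M (U (algebraMap L M u + algebraMap L M v * α)) -
      algebraMap L M (V (algebraMap L M u + algebraMap L M v * α)) * α = algebraMap L M u - algebraMap L M v * α
    rw [(key u v).1, (key u v).2]

/-- integral coordinates -/
private theorem BA2_coord {L M : Type} [Field L] [NumberField L] [Field M] [NumberField M] [Algebra L M] {α : M} {D : ℤ}
    (hα : α ^ 2 = ((D : ℤ) : M)) (hgen : ∀ x : M, ∃ u v : L, x = algebraMap L M u + algebraMap L M v * α)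
    (hne : ∀ u : L, algebraMap L M u ≠ α) (A : 𝓞 M) (hA : algebraMap (𝓞 M) M A = α) (x : 𝓞 M) :
    ∃ a b : 𝓞 L, ((2 * D : ℤ) : 𝓞 M) * x = algebraMap (𝓞 L) (𝓞 M) a + algebraMap (𝓞 L) (𝓞 M) b * A := by
  obtain ⟨σ, hσ⟩ := BA2_conj hα hgen hne
  obtain ⟨u, v, huv⟩ := hgen (algebraMap (𝓞 M) M x)
  have hx : IsIntegral ℤ (algebraMap (𝓞 M) M x) := RingOfIntegers.isIntegral_coe x
  have hαi : IsIntegral ℤ α := by
    rw [← hA]
    exact RingOfIntegers.isIntegral_coe A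
  have hσx : IsIntegral ℤ (σ (algebraMap (𝓞 M) M x)) := map_isIntegral_int σ hx
  have e1 : algebraMap L M (2 * u) = (algebraMap (𝓞 M) M x) + σ (algebraMap (𝓞 M) M x) := by
    rw [huv, hσ, map_mul, map_ofNat]
    ring
  have e2 : algebraMap L M (2 * v * ((D : ℤ) : L)) = ((algebraMap (𝓞 M) M x) - σ (algebraMap (𝓞 M) M x)) * α := by
    rw [huv, hσ, map_mul, map_mul, map_ofNat, map_intCast, ← hα]
    ring
  have i1 : IsIntegral ℤ (2 * u) := by
    rw [← isIntegral_algebraMap_iff (algebraMap L M).injective, e1]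
    exact hx.add hσx
  have i2 : IsIntegral ℤ (2 * v * ((D : ℤ) : L)) := by
    rw [← isIntegral_algebraMap_iff (algebraMap L M).injective, e2]
    exact (hx.sub hσx).mul hαi
  obtain ⟨a, ha⟩ : ∃ a : 𝓞 L, algebraMap (𝓞 L) L a = 2 * u := ⟨⟨2 * u, i1⟩, rfl⟩
  obtain ⟨b, hb⟩ : ∃ b : 𝓞 L, algebraMap (𝓞 L) L b = 2 * v * ((D : ℤ) : L) := ⟨⟨2 * v * ((D : ℤ) : L), i2⟩, rfl⟩
  refine ⟨((D : ℤ) : 𝓞 L) * a, b, ?_⟩
  apply RingOfIntegers.coe_injective
  show algebraMap (𝓞 M) M _ = algebraMap (𝓞 M) M _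
  rw [map_mul (algebraMap (𝓞 M) M), map_add (algebraMap (𝓞 M) M), map_mul (algebraMap (𝓞 M) M), hA,
    map_intCast (algebraMap (𝓞 M) M), ← IsScalarTower.algebraMap_apply (𝓞 L) (𝓞 M) M,
    ← IsScalarTower.algebraMap_apply (𝓞 L) (𝓞 M) M, IsScalarTower.algebraMap_apply (𝓞 L) L M,
    IsScalarTower.algebraMap_apply (𝓞 L) L M, map_mul (algebraMap (𝓞 L) L), map_intCast (algebraMap (𝓞 L) L), ha, hb,
    huv, map_mul, map_mul, map_mul, map_mul, map_ofNat, map_intCast]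
  push_cast
  linear_combination (0 : M) * hα

/-- an integer in a proper ideal containing `p` is divisible by `p` -/
private theorem BA2_int {R : Type} [CommRing R] {p : ℕ} (hp : p.Prime) {Q : Ideal R} (hQ : Q ≠ ⊤)
    (hpQ : ((p : ℤ) : R) ∈ Q) (n : ℤ) (hn : (n : R) ∈ Q) : (p : ℤ) ∣ n := by
  by_contra h
  obtain ⟨a, b, hab⟩ := (Nat.prime_iff_prime_int.1 hp).coprime_iff_not_dvd.2 h
  apply hQ
  rw [Ideal.eq_top_iff_one]
  have h1 : (1 : R) = (a : R) * ((p : ℤ) : R) + (b : R) * (n : R) := by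
    rw [← Int.cast_one, ← hab]
    push_cast
    ring
  rw [h1]
  exact Q.add_mem (Q.mul_mem_left _ hpQ) (Q.mul_mem_left _ hn)

/-- the residue field with `p` elements -/
private theorem BA2_res {R : Type} [CommRing R] {p : ℕ} (hp : p.Prime) {P : Ideal R} (hc : Nat.card (R ⧸ P) = p) (x : R) :
    ∃ n : ℤ, x - (n : R) ∈ P := by
  have hfact : Fact p.Prime := ⟨hp⟩
  have h1 : (1 : R ⧸ P) ≠ 0 := by
    intro h
    have hs : Subsingleton (R ⧸ P) := subsingleton_of_zero_eq_one h.symm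
    have := Nat.card_of_subsingleton (0 : R ⧸ P)
    rw [hc] at this
    exact hp.one_lt.ne' this
  have h2 : Ideal.Quotient.mk P x ∈ AddSubgroup.zmultiples (1 : R ⧸ P) := mem_zmultiples_of_prime_card hc h1
  obtain ⟨n, hn⟩ := AddSubgroup.mem_zmultiples_iff.1 h2
  refine ⟨n, ?_⟩
  rw [← Ideal.Quotient.eq_zero_iff_mem, map_sub, ← hn, map_intCast, zsmul_eq_mul, mul_one, sub_self]

/-- the other direction -/
private theorem BA2_card {R : Type} [CommRing R] {p : ℕ} (hp : p.Prime) {Q : Ideal R} (hQ : Q ≠ ⊤)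
    (hpQ : ((p : ℤ) : R) ∈ Q) (h : ∀ x : R, ∃ n : ℤ, x - (n : R) ∈ Q) : Nat.card (R ⧸ Q) = p := by
  have hfact : Fact p.Prime := ⟨hp⟩
  have hnt : Nontrivial (R ⧸ Q) := Ideal.Quotient.nontrivial_iff.2 hQ
  have h1 : addOrderOf (1 : R ⧸ Q) = p := by
    refine addOrderOf_eq_prime ?_ one_ne_zero
    have h2 := Ideal.Quotient.eq_zero_iff_mem.2 hpQ
    rw [map_intCast] at h2
    rw [nsmul_eq_mul, mul_one]
    exact_mod_cast h2
  have h3 : AddSubgroup.zmultiples (1 : R ⧸ Q) = ⊤ := by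
    rw [eq_top_iff]
    rintro y -
    obtain ⟨x, rfl⟩ := Ideal.Quotient.mk_surjective y
    obtain ⟨n, hn⟩ := h x
    refine AddSubgroup.mem_zmultiples_iff.2 ⟨n, ?_⟩
    have h4 := Ideal.Quotient.eq_zero_iff_mem.2 hn
    rw [map_sub, map_intCast, sub_eq_zero] at h4
    rw [zsmul_eq_mul, mul_one, h4]
  rw [← AddSubgroup.card_top, ← h3, Nat.card_zmultiples, h1]

/-- one prime ideal -/
private theorem BA2_one {L M : Type} [Field L] [NumberField L] [Field M] [NumberField M] [Algebra L M] {α : M} {D : ℤ}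
    (hα : α ^ 2 = ((D : ℤ) : M)) (hgen : ∀ x : M, ∃ u v : L, x = algebraMap L M u + algebraMap L M v * α)
    (hne : ∀ u : L, algebraMap L M u ≠ α) (A : 𝓞 M) (hA : algebraMap (𝓞 M) M A = α) {p : ℕ} (hp : p.Prime)
    (h2 : ¬ (p : ℤ) ∣ 2 * D) {P : Ideal (𝓞 L)} (hP : Ideal.absNorm P = p) (s : ℤ) (hs : (p : ℤ) ∣ D - s ^ 2) :
    ∃ Q : Ideal (𝓞 M), Q ≠ ⊤ ∧ ((p : ℤ) : 𝓞 M) ∈ Q ∧ A - ((s : ℤ) : 𝓞 M) ∈ Q ∧ Ideal.absNorm Q = p ∧
      Q.comap (algebraMap (𝓞 L) (𝓞 M)) = P := by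
  have hcardP : Nat.card (𝓞 L ⧸ P) = p := by
    rw [← hP, Ideal.absNorm_apply, Submodule.cardQuot_apply]
  have hprime : P.IsPrime := Ideal.isPrime_of_irreducible_absNorm (by rw [hP]; exact hp)
  have hbot : P ≠ ⊥ := by
    rintro rfl
    rw [Ideal.absNorm_bot] at hP
    exact hp.ne_zero hP.symm
  have hmax : P.IsMaximal := hprime.isMaximal hbot
  have hpP : ((p : ℤ) : 𝓞 L) ∈ P := by
    have h := Ideal.absNorm_mem P
    rw [hP] at h
    exact_mod_cast h
  obtain ⟨k, hk⟩ := hs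
  have hA2 : A ^ 2 = ((D : ℤ) : 𝓞 M) := by
    apply RingOfIntegers.coe_injective
    show algebraMap (𝓞 M) M _ = algebraMap (𝓞 M) M _
    rw [map_pow (algebraMap (𝓞 M) M), map_intCast (algebraMap (𝓞 M) M), hA, hα]
  -- the coordinates of the elements of `P 𝓞_M`
  have hcoord : ∀ z ∈ P.map (algebraMap (𝓞 L) (𝓞 M)), ∀ x : 𝓞 M, ∃ a ∈ P, ∃ b ∈ P,
      ((2 * D : ℤ) : 𝓞 M) * (x * z) = algebraMap (𝓞 L) (𝓞 M) a + algebraMap (𝓞 L) (𝓞 M) b * A := by
    intro z hz
    refine Submodule.span_induction (p := fun z _ => ∀ x : 𝓞 M, ∃ a ∈ P, ∃ b ∈ P,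
      ((2 * D : ℤ) : 𝓞 M) * (x * z) = algebraMap (𝓞 L) (𝓞 M) a + algebraMap (𝓞 L) (𝓞 M) b * A) ?_ ?_ ?_ ?_ hz
    · rintro _ ⟨π, hπ, rfl⟩ x
      obtain ⟨a, b, hab⟩ := BA2_coord hα hgen hne A hA x
      refine ⟨a * π, P.mul_mem_left _ hπ, b * π, P.mul_mem_left _ hπ, ?_⟩
      rw [map_mul, map_mul]
      linear_combination (algebraMap (𝓞 L) (𝓞 M) π) * hab
    · intro x
      refine ⟨0, P.zero_mem, 0, P.zero_mem, ?_⟩
      rw [map_zero]
      ring
    · intro y z _ _ hy hz x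
      obtain ⟨a, ha, b, hb, e⟩ := hy x
      obtain ⟨a', ha', b', hb', e'⟩ := hz x
      refine ⟨a + a', P.add_mem ha ha', b + b', P.add_mem hb hb', ?_⟩
      rw [map_add, map_add]
      linear_combination e + e'
    · intro c z _ hz x
      obtain ⟨a, ha, b, hb, e⟩ := hz (x * c)
      refine ⟨a, ha, b, hb, ?_⟩
      rw [← e, smul_eq_mul, mul_assoc]
  have hproper : P.map (algebraMap (𝓞 L) (𝓞 M)) ⊔ Ideal.span {A - ((s : ℤ) : 𝓞 M)} ≠ ⊤ := by
    intro htop
    have h1 : (1 : 𝓞 M) ∈ P.map (algebraMap (𝓞 L) (𝓞 M)) ⊔ Ideal.span {A - ((s : ℤ) : 𝓞 M)} := by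
      rw [htop]
      exact Submodule.mem_top
    obtain ⟨y, hy, w, hw, hyw⟩ := Submodule.mem_sup.1 h1
    obtain ⟨γ, rfl⟩ := Ideal.mem_span_singleton'.1 hw
    have h3 : A + ((s : ℤ) : 𝓞 M) ∈ P.map (algebraMap (𝓞 L) (𝓞 M)) := by
      have h4 : A + ((s : ℤ) : 𝓞 M) = (A + ((s : ℤ) : 𝓞 M)) * y +
          (γ * ((k : ℤ) : 𝓞 M)) * algebraMap (𝓞 L) (𝓞 M) ((p : ℤ) : 𝓞 L) := by
        have h5 : ((D : ℤ) : 𝓞 M) - ((s : ℤ) : 𝓞 M) ^ 2 = ((p : ℤ) : 𝓞 M) * ((k : ℤ) : 𝓞 M) := by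
          rw [← Int.cast_pow, ← Int.cast_sub, hk, Int.cast_mul]
        rw [map_intCast]
        linear_combination (-(A + ((s : ℤ) : 𝓞 M))) * hyw + γ * hA2 + γ * h5
      rw [h4]
      exact Ideal.add_mem _ (Ideal.mul_mem_left _ _ hy) (Ideal.mul_mem_left _ _ (Ideal.mem_map_of_mem _ hpP))
    obtain ⟨a, ha, b, hb, e⟩ := hcoord _ h3 1
    have h6 : algebraMap L M (algebraMap (𝓞 L) L a) + algebraMap L M (algebraMap (𝓞 L) L b) * α =
        algebraMap L M (((2 * D : ℤ) : L) * ((s : ℤ) : L)) + algebraMap L M ((2 * D : ℤ) : L) * α := by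
      have h7 := congrArg (algebraMap (𝓞 M) M) e
      rw [map_add (algebraMap (𝓞 M) M), map_mul (algebraMap (𝓞 M) M), map_mul (algebraMap (𝓞 M) M),
        map_mul (algebraMap (𝓞 M) M), map_add (algebraMap (𝓞 M) M), map_one, one_mul, map_intCast, map_intCast, hA,
        ← IsScalarTower.algebraMap_apply (𝓞 L) (𝓞 M) M, ← IsScalarTower.algebraMap_apply (𝓞 L) (𝓞 M) M,
        IsScalarTower.algebraMap_apply (𝓞 L) L M, IsScalarTower.algebraMap_apply (𝓞 L) L M] at h7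
      rw [map_mul, map_intCast, map_intCast]
      linear_combination (-1 : M) * h7
    have h8 := (BA2_uniq hne h6).2
    have h9 : b = ((2 * D : ℤ) : 𝓞 L) := by
      apply RingOfIntegers.coe_injective
      show algebraMap (𝓞 L) L _ = algebraMap (𝓞 L) L _
      rw [h8, map_intCast (algebraMap (𝓞 L) L)]
    rw [h9] at hb
    exact h2 (BA2_int hp hprime.ne_top hpP _ hb)
  obtain ⟨Q, hQm, hQ⟩ := Ideal.exists_le_maximal _ hproper
  have hPQ : P.map (algebraMap (𝓞 L) (𝓞 M)) ≤ Q := le_sup_left.trans hQ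
  have hpQ : ((p : ℤ) : 𝓞 M) ∈ Q := by
    have h := hPQ (Ideal.mem_map_of_mem (algebraMap (𝓞 L) (𝓞 M)) hpP)
    rwa [map_intCast] at h
  have hAQ : A - ((s : ℤ) : 𝓞 M) ∈ Q := (le_sup_right.trans hQ) (Ideal.mem_span_singleton_self _)
  refine ⟨Q, hQm.ne_top, hpQ, hAQ, ?_, ?_⟩
  · rw [Ideal.absNorm_apply, Submodule.cardQuot_apply]
    refine BA2_card hp hQm.ne_top hpQ fun x => ?_
    obtain ⟨a, b, hab⟩ := BA2_coord hα hgen hne A hA x
    obtain ⟨m, hm⟩ := BA2_res hp hcardP a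
    obtain ⟨n, hn⟩ := BA2_res hp hcardP b
    obtain ⟨c, d, hcd⟩ := (Nat.prime_iff_prime_int.1 hp).coprime_iff_not_dvd.2 h2
    have hm' := hPQ (Ideal.mem_map_of_mem (algebraMap (𝓞 L) (𝓞 M)) hm)
    have hn' := hPQ (Ideal.mem_map_of_mem (algebraMap (𝓞 L) (𝓞 M)) hn)
    rw [map_sub, map_intCast] at hm' hn'
    refine ⟨d * (m + n * s), ?_⟩
    have hcd' : ((c : ℤ) : 𝓞 M) * ((p : ℤ) : 𝓞 M) + ((d : ℤ) : 𝓞 M) * ((2 * D : ℤ) : 𝓞 M) = 1 := by
      rw [← Int.cast_mul, ← Int.cast_mul, ← Int.cast_add, hcd, Int.cast_one]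
    have e : x - ((d * (m + n * s) : ℤ) : 𝓞 M) = (((c : ℤ) : 𝓞 M) * x) * ((p : ℤ) : 𝓞 M) +
        ((d : ℤ) : 𝓞 M) * (algebraMap (𝓞 L) (𝓞 M) a - ((m : ℤ) : 𝓞 M)) +
        (((d : ℤ) : 𝓞 M) * A) * (algebraMap (𝓞 L) (𝓞 M) b - ((n : ℤ) : 𝓞 M)) +
        (((d : ℤ) : 𝓞 M) * ((n : ℤ) : 𝓞 M)) * (A - ((s : ℤ) : 𝓞 M)) := by
      rw [Int.cast_mul, Int.cast_add, Int.cast_mul]
      linear_combination (-x) * hcd' + ((d : ℤ) : 𝓞 M) * hab
    rw [e]
    exact Q.add_mem (Q.add_mem (Q.add_mem (Q.mul_mem_left _ hpQ) (Q.mul_mem_left _ hm')) (Q.mul_mem_left _ hn'))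
      (Q.mul_mem_left _ hAQ)
  · refine (hmax.eq_of_le ?_ (Ideal.map_le_iff_le_comap.1 hPQ)).symm
    exact Ideal.comap_ne_top _ hQm.ne_top

theorem two_above {L M : Type} [Field L] [NumberField L] [Field M] [NumberField M] [Algebra L M] {α : M} {D : ℤ}
    (hα : α ^ 2 = ((D : ℤ) : M)) (hgen : ∀ x : M, ∃ u v : L, x = algebraMap L M u + algebraMap L M v * α)
    (hne : ∀ u : L, algebraMap L M u ≠ α) {p : ℕ} (hp : p.Prime) (h2 : ¬ (p : ℤ) ∣ 2 * D)
    (hs : IsSquare ((D : ℤ) : ZMod p)) {P : Ideal (𝓞 L)} (hP : Ideal.absNorm P = p) :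
    ∃ Q₁ Q₂ : Ideal (𝓞 M), Q₁ ≠ Q₂ ∧ Ideal.absNorm Q₁ = p ∧ Ideal.absNorm Q₂ = p ∧
      Q₁.comap (algebraMap (𝓞 L) (𝓞 M)) = P ∧ Q₂.comap (algebraMap (𝓞 L) (𝓞 M)) = P := by
  have hint : IsIntegral ℤ α := by
    refine IsIntegral.of_pow (n := 2) (by norm_num) ?_
    rw [hα]
    exact isIntegral_algebraMap (R := ℤ) (A := M) (x := D)
  obtain ⟨r, hr⟩ := hs
  obtain ⟨s, rfl⟩ := ZMod.intCast_surjective r
  have hsD : (p : ℤ) ∣ D - s ^ 2 := by
    rw [← CharP.intCast_eq_zero_iff (ZMod p) p, Int.cast_sub, Int.cast_pow, hr]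
    ring
  have hsD' : (p : ℤ) ∣ D - (-s) ^ 2 := by
    rwa [neg_sq]
  obtain ⟨Q₁, t₁, p₁, a₁, n₁, c₁⟩ := BA2_one hα hgen hne ⟨α, hint⟩ rfl hp h2 hP s hsD
  obtain ⟨Q₂, t₂, p₂, a₂, n₂, c₂⟩ := BA2_one hα hgen hne ⟨α, hint⟩ rfl hp h2 hP (-s) hsD'
  refine ⟨Q₁, Q₂, ?_, n₁, n₂, c₁, c₂⟩
  rintro rfl
  have h3 : (((-s) - s : ℤ) : 𝓞 M) ∈ Q₁ := by
    have h4 := Q₁.sub_mem a₁ a₂
    rwa [sub_sub_sub_cancel_left, ← Int.cast_sub] at h4
  have h5 := BA2_int hp t₁ p₁ _ h3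
  have h6 : (p : ℤ) ∣ 2 * s := by
    have h7 : (2 * s : ℤ) = -((-s) - s) := by ring
    rw [h7]
    exact (dvd_neg).2 h5
  rcases (Nat.prime_iff_prime_int.1 hp).dvd_or_dvd h6 with h7 | h7
  · exact h2 (h7.mul_right _)
  · apply h2
    have h8 : (p : ℤ) ∣ D := by
      have h9 : (D : ℤ) = (D - s ^ 2) + s * s := by ring
      rw [h9]
      exact dvd_add hsD (h7.mul_left _)
    exact h8.mul_left _

end VK
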