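import Pool.Agent.Lib.MP_17a322_ntVB.Defs
import Pool.Agent.Lib.MP_17a322_ntVB.BA1
import Pool.Agent.Lib.MP_17a322_ntVB.BA2
import Pool.Agent.Lib.MP_17a322_ntLH.T3A

/-!
# LEAF BB1: the primes of degree one of `L` which are inert in `ℚ(√D)`

PROOF.  As `MWS.split_primes` and `MWS.inert` (`MP_10e784_agW/SA.lean`) and `LVH.d1_sum` (`MP_17a322_ntLH/T3A.lean`).  `M = L(√D)` (`exists_quad`), `n = [L : ℚ]`, `A`, `A'` the constants of `EL.mer L`, `EL.mer M`.  Write `f P = log N P / N P`, and for `2 ≤ y ≤ x` let `T` be the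
prime ideals of `L` of prime norm in `(y, x]`: `∑_T f ≥ log (x / y) - 2 A`.  Let `T₁` be the `P ∈ T` with `p = N P` not dividing `2 D` and `D` a square modulo `p`: `two_above` gives two prime ideals of `M` of norm `p` above `P`, for different `P` they are different (`comap`), so
`2 ∑_{T₁} f ≤ ∑ over the prime ideals of M of prime norm in (y, x] ≤ log (x / y) + 2 A'`.  The `P ∈ T` with `p ∣ 2 D` contribute at most `n ∑_{p ∣ 2 D} log p / p`.  The remaining `P` have norm `p` with `D1 L p` and `D` not a square modulo `p`; at most `n` of them have the same norm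
(`PT.primes_above_le`, as in T3A).  So `n ∑_{p} log p / p ≥ log (x / y) - 2 A - (log (x / y) + 2 A') / 2 - C`: `w = 1 / (2 n)`.
-/

namespace VK

open Finset NumberField LVH

/-- `log N P / N P` -/
private noncomputable def BB1_f {K : Type} [Field K] [NumberField K] (P : Ideal (𝓞 K)) : ℝ :=
  Real.log (Ideal.absNorm P : ℕ) / (Ideal.absNorm P : ℕ)

private theorem BB1_f_nonneg {K : Type} [Field K] [NumberField K] (P : Ideal (𝓞 K)) : 0 ≤ BB1_f P :=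
  div_nonneg (Real.log_natCast_nonneg _) (Nat.cast_nonneg _)

open Classical in
/-- the prime ideals of prime norm in `(y, x]` -/
private noncomputable def BB1_T (K : Type) [Field K] [NumberField K] (y x : ℝ) : Finset (Ideal (𝓞 K)) :=
  ((EL.PP K x).filter (fun P => (Ideal.absNorm P).Prime)) \ ((EL.PP K y).filter (fun P => (Ideal.absNorm P).Prime))

private theorem BB1_mem {K : Type} [Field K] [NumberField K] {y x : ℝ} (hy0 : 0 ≤ y) (hx0 : 0 ≤ x)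
    (P : Ideal (𝓞 K)) : P ∈ BB1_T K y x ↔
      (P.IsPrime ∧ P ≠ ⊥ ∧ ((Ideal.absNorm P : ℕ) : ℝ) ≤ x) ∧ (Ideal.absNorm P).Prime ∧
        y < ((Ideal.absNorm P : ℕ) : ℝ) := by
  classical
  unfold BB1_T
  rw [mem_sdiff, mem_filter, mem_filter, EL.mem_PP hx0, EL.mem_PP hy0]
  constructor
  · rintro ⟨⟨h1, h2⟩, h3⟩
    refine ⟨h1, h2, ?_⟩
    by_contra h4
    exact h3 ⟨⟨h1.1, h1.2.1, not_lt.1 h4⟩, h2⟩
  · rintro ⟨h1, h2, h3⟩
    exact ⟨⟨h1, h2⟩, fun h4 => absurd h4.1.2.2 (not_le.2 h3)⟩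

private theorem BB1_sum (K : Type) [Field K] [NumberField K] : ∃ A : ℝ, 0 < A ∧ ∀ y x : ℝ, 2 ≤ y → y ≤ x →
    Real.log (x / y) - 2 * A ≤ ∑ P ∈ BB1_T K y x, BB1_f P ∧
      ∑ P ∈ BB1_T K y x, BB1_f P ≤ Real.log (x / y) + 2 * A := by
  classical
  obtain ⟨A, hA, h⟩ := EL.mer K
  refine ⟨A, hA, fun y x hy hyx => ?_⟩
  have hy0 : (0 : ℝ) ≤ y := by linarith
  have hx0 : (0 : ℝ) ≤ x := by linarith
  have h1 := abs_le.1 (h x (hy.trans hyx))
  have h2 := abs_le.1 (h y hy)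
  have hsub : (EL.PP K y).filter (fun P => (Ideal.absNorm P).Prime) ⊆
      (EL.PP K x).filter (fun P => (Ideal.absNorm P).Prime) := by
    intro P hP
    rw [mem_filter] at hP ⊢
    obtain ⟨h3, h4, h5⟩ := (EL.mem_PP hy0).1 hP.1
    exact ⟨(EL.mem_PP hx0).2 ⟨h3, h4, h5.trans hyx⟩, hP.2⟩
  have h3 := sum_sdiff (f := fun P : Ideal (𝓞 K) => Real.log (Ideal.absNorm P : ℕ) / (Ideal.absNorm P : ℕ)) hsub
  have h5 : Real.log (x / y) = Real.log x - Real.log y := Real.log_div (by linarith) (by linarith)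
  have h6 : ∑ P ∈ BB1_T K y x, BB1_f P =
      ∑ P ∈ ((EL.PP K x).filter (fun P => (Ideal.absNorm P).Prime)) \
        ((EL.PP K y).filter (fun P => (Ideal.absNorm P).Prime)),
        Real.log (Ideal.absNorm P : ℕ) / (Ideal.absNorm P : ℕ) := rfl
  rw [h6, h5]
  constructor
  · linarith [h1.1, h2.2]
  · linarith [h1.2, h2.1]

/-- at most `n` prime ideals over a prime number -/
private theorem BB1_fib {K : Type} [Field K] [NumberField K] (T : Finset (Ideal (𝓞 K))) (U : Finset ℕ)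
    (hT : ∀ P ∈ T, P.IsPrime ∧ (Ideal.absNorm P).Prime) (hU : ∀ P ∈ T, Ideal.absNorm P ∈ U) :
    ∑ P ∈ T, BB1_f P ≤ Module.finrank ℚ K * ∑ p ∈ U, Real.log p / (p : ℝ) := by
  classical
  rw [← sum_fiberwise_of_maps_to hU, mul_sum]
  refine sum_le_sum fun q hq => ?_
  have h0 : (0 : ℝ) ≤ Real.log q / (q : ℝ) := div_nonneg (Real.log_natCast_nonneg _) (Nat.cast_nonneg _)
  have h5 : ∑ P ∈ T.filter (fun P => Ideal.absNorm P = q), BB1_f P =
      ((T.filter (fun P => Ideal.absNorm P = q)).card : ℝ) * (Real.log q / (q : ℝ)) := by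
    rw [sum_congr rfl (g := fun _ => Real.log q / (q : ℝ)) (fun P hP => by
      show Real.log (Ideal.absNorm P : ℕ) / (Ideal.absNorm P : ℕ) = _
      rw [(mem_filter.1 hP).2]), sum_const, nsmul_eq_mul]
  rw [h5]
  refine mul_le_mul_of_nonneg_right ?_ h0
  rcases (T.filter (fun P => Ideal.absNorm P = q)).eq_empty_or_nonempty with he | ⟨P0, hP0⟩
  · rw [he, card_empty]
    simp
  · have hqp : q.Prime := by
      have := (hT P0 (mem_filter.1 hP0).1).2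
      rwa [(mem_filter.1 hP0).2] at this
    have h6 := PT.primes_above_le K q hqp (T.filter (fun P => Ideal.absNorm P = q)) (by
      intro P hP
      obtain ⟨h7, h8⟩ := mem_filter.1 hP
      refine ⟨(hT P h7).1, ?_⟩
      rw [← h8]
      exact Ideal.absNorm_mem P)
    exact_mod_cast h6

theorem mean_inert (L : Type) [Field L] [NumberField L] {D : ℤ} (hD : ¬ IsSquare ((D : ℤ) : L)) :
    Mean L (fun p => ¬ IsSquare ((D : ℤ) : ZMod p)) := by
  classical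
  obtain ⟨J, hJ⟩ : ∃ J : ℕ → Prop, J = fun p => ¬ IsSquare ((D : ℤ) : ZMod p) := ⟨_, rfl⟩
  rw [← hJ]
  obtain ⟨M, iM1, iM2, iM3, α, hα, hgen, hne⟩ := exists_quad L hD
  obtain ⟨A, hA, hL⟩ := BB1_sum L
  obtain ⟨A', hA', hM⟩ := BB1_sum M
  have hD0 : D ≠ 0 := by
    rintro rfl
    exact hD ⟨0, by simp⟩
  have hn0 : 0 < Module.finrank ℚ L := Module.finrank_pos
  have hnR : (0 : ℝ) < Module.finrank ℚ L := by exact_mod_cast hn0
  obtain ⟨n, hn⟩ : ∃ n : ℝ, n = (Module.finrank ℚ L : ℝ) := ⟨_, rfl⟩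
  rw [← hn] at hnR
  obtain ⟨C1, hC1⟩ : ∃ C1 : ℝ, C1 = ∑ p ∈ (2 * D).natAbs.primeFactors, Real.log p / (p : ℝ) := ⟨_, rfl⟩
  refine ⟨1 / (2 * n), (2 * A + A' + n * C1) / n, by positivity, fun y x hy hyx => ?_⟩
  have hy0 : (0 : ℝ) ≤ y := by linarith
  have hx0 : (0 : ℝ) ≤ x := by linarith
  have hL1 := (hL y x hy hyx).1
  have hM1 := (hM y x hy hyx).2
  -- the three parts
  obtain ⟨T1, hT1⟩ : ∃ T1, T1 = (BB1_T L y x).filter (fun P => ¬ ((Ideal.absNorm P : ℕ) : ℤ) ∣ 2 * D ∧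
      IsSquare ((D : ℤ) : ZMod (Ideal.absNorm P))) := ⟨_, rfl⟩
  obtain ⟨T2, hT2⟩ : ∃ T2, T2 = (BB1_T L y x).filter (fun P => ((Ideal.absNorm P : ℕ) : ℤ) ∣ 2 * D) := ⟨_, rfl⟩
  obtain ⟨T3, hT3⟩ : ∃ T3, T3 = (BB1_T L y x).filter (fun P => ¬ IsSquare ((D : ℤ) : ZMod (Ideal.absNorm P))) :=
    ⟨_, rfl⟩
  have hcov : BB1_T L y x ⊆ (T1 ∪ T2) ∪ T3 := by
    intro P hP
    rw [mem_union, mem_union, hT1, hT2, hT3, mem_filter, mem_filter, mem_filter]
    by_cases h1 : ((Ideal.absNorm P : ℕ) : ℤ) ∣ 2 * D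
    · exact Or.inl (Or.inr ⟨hP, h1⟩)
    · by_cases h2 : IsSquare ((D : ℤ) : ZMod (Ideal.absNorm P))
      · exact Or.inl (Or.inl ⟨hP, h1, h2⟩)
      · exact Or.inr ⟨hP, h2⟩
  have hsplit : ∑ P ∈ BB1_T L y x, BB1_f P ≤ ∑ P ∈ T1, BB1_f P + ∑ P ∈ T2, BB1_f P + ∑ P ∈ T3, BB1_f P := by
    have hU : ∀ s t : Finset (Ideal (𝓞 L)), ∑ P ∈ s ∪ t, BB1_f P ≤ ∑ P ∈ s, BB1_f P + ∑ P ∈ t, BB1_f P := by
      intro s t
      rw [← sum_union_inter]
      have : 0 ≤ ∑ P ∈ s ∩ t, BB1_f P := sum_nonneg fun P _ => BB1_f_nonneg P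
      linarith
    refine (sum_le_sum_of_subset_of_nonneg hcov fun P _ _ => BB1_f_nonneg P).trans ?_
    refine (hU _ _).trans ?_
    linarith [hU T1 T2]
  -- part 1
  have h1 : 2 * ∑ P ∈ T1, BB1_f P ≤ ∑ Q ∈ BB1_T M y x, BB1_f Q := by
    have hE : ∀ P : Ideal (𝓞 L), ∃ E : Finset (Ideal (𝓞 M)), P ∈ T1 → E.card = 2 ∧
        ∀ Q ∈ E, Ideal.absNorm Q = Ideal.absNorm P ∧ Q.comap (algebraMap (𝓞 L) (𝓞 M)) = P := by
      intro P
      by_cases hP : P ∈ T1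
      · rw [hT1, mem_filter, BB1_mem hy0 hx0] at hP
        obtain ⟨⟨⟨h3, h4, h5⟩, h6, h7⟩, h8, h9⟩ := hP
        obtain ⟨Q₁, Q₂, hQ, hQ1, hQ2, hQ3, hQ4⟩ := two_above hα hgen hne h6 h8 h9 (P := P) rfl
        refine ⟨{Q₁, Q₂}, fun _ => ⟨card_pair hQ, ?_⟩⟩
        intro Q hQm
        rw [mem_insert, mem_singleton] at hQm
        rcases hQm with rfl | rfl
        · exact ⟨hQ1, hQ3⟩
        · exact ⟨hQ2, hQ4⟩
      · exact ⟨∅, fun h => absurd h hP⟩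
    choose E hE using hE
    have hdisj : ∀ P ∈ T1, ∀ P' ∈ T1, P ≠ P' → Disjoint (E P) (E P') := by
      intro P hP P' hP' hPP
      rw [Finset.disjoint_left]
      intro Q h3 h4
      exact hPP (((hE P hP).2 Q h3).2.symm.trans ((hE P' hP').2 Q h4).2)
    have hsub : T1.biUnion E ⊆ BB1_T M y x := by
      intro Q hQ
      obtain ⟨P, hP, hPQ⟩ := mem_biUnion.mp hQ
      have h3 := ((hE P hP).2 Q hPQ).1
      rw [hT1, mem_filter, BB1_mem hy0 hx0] at hP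
      obtain ⟨⟨⟨h4, h5, h6⟩, h7, h8⟩, -, -⟩ := hP
      rw [BB1_mem hy0 hx0, h3]
      refine ⟨⟨?_, ?_, h6⟩, h7, h8⟩
      · refine Ideal.isPrime_of_irreducible_absNorm ?_
        rw [h3]
        exact h7
      · rintro rfl
        rw [Ideal.absNorm_bot] at h3
        exact h7.ne_zero h3.symm
    refine le_trans ?_ (sum_le_sum_of_subset_of_nonneg hsub fun Q _ _ => BB1_f_nonneg Q)
    rw [sum_biUnion hdisj, mul_sum]
    refine le_of_eq (sum_congr rfl fun P hP => ?_)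
    obtain ⟨hc, hQ⟩ := hE P hP
    rw [sum_congr rfl (g := fun _ => BB1_f P) (fun Q hQm => by
      unfold BB1_f
      rw [(hQ Q hQm).1]), sum_const, hc, nsmul_eq_mul]
    norm_num
  -- part 2
  have h2 : ∑ P ∈ T2, BB1_f P ≤ n * C1 := by
    rw [hC1, hn]
    refine BB1_fib T2 _ (fun P hP => ?_) fun P hP => ?_
    · rw [hT2, mem_filter, BB1_mem hy0 hx0] at hP
      exact ⟨hP.1.1.1, hP.1.2.1⟩
    · rw [hT2, mem_filter, BB1_mem hy0 hx0] at hP
      rw [Nat.mem_primeFactors]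
      refine ⟨hP.1.2.1, Int.natCast_dvd.1 hP.2, ?_⟩
      rw [Ne, Int.natAbs_eq_zero, mul_eq_zero]
      rintro (h | h)
      · norm_num at h
      · exact hD0 h
  -- part 3
  have h3 : ∑ P ∈ T3, BB1_f P ≤ n * ∑ p ∈ (Ioc ⌊y⌋₊ ⌊x⌋₊).filter
      (fun p => p.Prime ∧ D1 L p ∧ J p), Real.log p / (p : ℝ) := by
    rw [hn]
    refine BB1_fib T3 _ (fun P hP => ?_) fun P hP => ?_
    · rw [hT3, mem_filter, BB1_mem hy0 hx0] at hP
      exact ⟨hP.1.1.1, hP.1.2.1⟩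
    · rw [hT3, mem_filter, BB1_mem hy0 hx0] at hP
      obtain ⟨⟨⟨h4, h5, h6⟩, h7, h8⟩, h9⟩ := hP
      rw [mem_filter, mem_Ioc]
      refine ⟨⟨(Nat.floor_lt hy0).2 h8, Nat.le_floor h6⟩, h7, ⟨P, rfl⟩, ?_⟩
      rw [hJ]
      exact h9
  have h4 : 1 / 2 * Real.log (x / y) - (2 * A + A' + n * C1) ≤ n * ∑ p ∈ (Ioc ⌊y⌋₊ ⌊x⌋₊).filter
      (fun p => p.Prime ∧ D1 L p ∧ J p), Real.log p / (p : ℝ) := by
    linarith
  have h5 : 1 / (2 * n) * Real.log (x / y) - (2 * A + A' + n * C1) / n =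
      (1 / 2 * Real.log (x / y) - (2 * A + A' + n * C1)) / n := by
    field_simp
  rw [h5, div_le_iff₀ hnR]
  refine h4.trans (le_of_eq ?_)
  rw [mul_comm n]

end VK
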