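import Pool.Agent.Lib.MP_17a322_ntVB.BH
import Pool.Agent.Lib.MP_17a322_ntVK.SX

/-!
# LEAF BJ1: cyclic covers of prime degree, some of the curves fixed

PROOF.  Copy `cover_q` of `MP_17a322_ntVK/SX.lean` with `coreV` (BH) in place of `coreK`, `L` and `ζ` in place of the cyclotomic field, `aA ω A' z.1`, `aB ω B' z.1`, `h + g` in place of `fun l => cA ω (z.1 l)`, `..`, `g`.  `ds (aA ..) (aB ..) ≠ 0` in `K` by `Fin.addCases` (`Fin.append_left`, `Fin.append_right`): the fixed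
curves by `hd'` (coercion to `K` is injective), the others by `Box`.
-/

namespace VK

open Finset NumberField LVH

theorem cover_LV (K : Type) [Field K] [NumberField K] [DecidableEq K] (hFR : FactRK K) (hFQ : MWS.FactQ) {q : ℕ}
    (hq : q.Prime) (L : Type) [Field L] [NumberField L] [Algebra K L] {ζ : L} (hζ : IsPrimitiveRoot ζ q) {J : ℕ → Prop}
    (hJ : Mean L J) : ∃ c : ℝ, 0 < c ∧ ∀ (e : ℕ) (ω : Module.Basis (Fin e) ℤ (𝓞 K)) (Γ : Subgroup Kˣ), Γ.FG →
    ∀ (n h g : ℕ) (ι : Type) [Fintype ι] [DecidableEq ι] [Nonempty ι] (E : ι → Fin n → ℤ) (d : Fin (h + g) → ℕ),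
    (∀ l, 1 ≤ d l) → (∀ l, q ∣ 2 * d l) → ∀ A' B' : Fin h → 𝓞 K, (∀ l, ds (A' l) (B' l) ≠ 0) →
    (∃ p1 : ℕ, Ssg L J p1 A' B') → ∃ C : ℝ, ∀ H : ℕ, 1 ≤ H →
    (Nat.card {z : Cv e g × (IxT ι d × Fin e → ℤ) // Box ω H z ∧
      CovF Γ q E (aA ω A' z.1) (aB ω B' z.1) (cf ω z.2)} : ℝ) ≤
      C * (H : ℝ) ^ (e * (Fintype.card (IxT ι d) + 5 * g)) * Real.exp (-(Real.log H) ^ c) := by
  have hqz : NeZero q := ⟨hq.ne_zero⟩
  obtain ⟨c, hc, hcore⟩ := coreV K hFR hFQ L hJ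
  refine ⟨c, hc, fun e ω Γ hΓ n h g ι _ _ _ E d hd hqd A' B' hd' hss => ?_⟩
  obtain ⟨p1, hp1⟩ := hss
  obtain ⟨C, hC⟩ := hcore e ω Γ hΓ (n + 1) h g A' B' hd' p1 hp1 (q + 3) (Fintype.card (IxT ι d × Fin e)) (1 / 3)
    (by norm_num) (by norm_num)
  refine ⟨C, fun H hH => ?_⟩
  have h1 := hC H hH (IxT ι d × Fin e) rfl (RA q E d ω) (dens_RA hq hζ E d ω)
  have e1 : Fintype.card (IxT ι d × Fin e) + 5 * e * g = e * (Fintype.card (IxT ι d) + 5 * g) := by
    rw [Fintype.card_prod, Fintype.card_fin]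
    ring
  rw [e1] at h1
  refine le_trans ?_ h1
  have h2 := box_le (⇑ω) H
    (fun z : Cv e g × (IxT ι d × Fin e → ℤ) => CovF Γ q E (aA ω A' z.1) (aB ω B' z.1) (cf ω z.2))
    (fun z => ∃ x : Fin (n + 1) → Kˣ, (∀ l, x l ∈ Γ) ∧
      ∃ P : (l : Fin (h + g)) → Pt (aA ω A' z.1 l) (aB ω B' z.1 l),
        AdmK L (q + 3) (RA q E d ω) (A := aA ω A' z.1) (B := aB ω B' z.1) z.2 x P)
    (by
      rintro z hz ⟨x, hx, γ, hγ, P, w, hP, hw⟩
      have hds : ∀ l, ds (aA ω A' z.1 l) (aB ω B' z.1 l) ≠ 0 := by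
        refine Fin.addCases (fun l => ?_) (fun l => ?_)
        · intro h0
          refine hd' l ?_
          apply RingOfIntegers.coe_injective
          rw [map_zero]
          rw [← h0]
          simp only [aA, aB, Fin.append_left, ds, map_add, map_mul, map_pow, map_ofNat]
        · intro h0
          refine (hz.1 l).1 ?_
          apply RingOfIntegers.coe_injective
          rw [map_zero]
          rw [← h0]
          simp only [aA, aB, Fin.append_right, ds, cA, cB, map_add, map_mul, map_pow, map_ofNat]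
      obtain ⟨Q, hQ⟩ := (pt_iff hds (fun P => (γ : K) * w ^ q =
        ∑ t, cf ω z.2 t * bT E (fun l => (x l : K)) P t)).1 ⟨P, hP, hw⟩
      refine ⟨Fin.snoc x γ, fun l => ?_, Q, ?_⟩
      · refine Fin.lastCases ?_ (fun i => ?_) l
        · rw [Fin.snoc_last]
          exact hγ
        · rw [Fin.snoc_castSucc]
          exact hx i
      · refine adm_RA L (q + 3) hq.one_le E hd hqd ω z.2 (Fin.snoc x γ) Q w ?_
        simp only [Fin.snoc_last, Fin.snoc_castSucc]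
        exact hQ)
  exact_mod_cast h2

end VK
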