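import Pool.Agent.Lib.MP_17a322_ntVB.BB2
import Pool.Agent.Lib.MP_17a322_ntVB.BI
import Pool.Agent.Lib.MP_17a322_ntVB.BJ1
import Pool.Agent.Lib.MP_17a322_ntVB.BJ2

/-!
# LEAF BK: the four types, all the prime factors of the degree

PROOF.  `exp_le`: if `log H ≥ 1` then `(log H) ^ c ≤ (log H) ^ c'`; else `(log H) ^ c ≤ 1` and the right side is at least `1`.  `coversF`: for every prime factor `q` of `r` and `a b : Bool` let `c q a b` be the constant of `cover_LV` for `L = CyclotomicField q K`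
(`IsCyclotomicExtension.zeta_spec`, `NeZero q`) and `J = JT (a = true) (b = true)` (`mean_types`) if the conditions of `mean_types` hold, and `1` otherwise; `c` = the minimum over `r.primeFactors × Bool × Bool` (`Finset.exists_min_image` or `inf'`).  Given the data with the prime `q ∣ r` put
`a = decide (∃ l, B' l = 0)`, `b = decide (∃ l, A' l = 0)`; `ssg_types` (BI); the number for degree `r = q k` is at most the number for degree `q` (`w ^ r = (w ^ k) ^ q`, `box_le` of SD6); `exp_le`.  `intersF`: the same without `q`, `L = K`.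
-/

namespace VK

open Finset NumberField LVH

theorem exp_le {c c' : ℝ} (hc : 0 < c) (h : c ≤ c') {H : ℕ} (hH : 1 ≤ H) :
    Real.exp (-(Real.log H) ^ c') ≤ Real.exp 1 * Real.exp (-(Real.log H) ^ c) := by
  have hL : 0 ≤ Real.log H := Real.log_natCast_nonneg H
  rw [← Real.exp_add]
  apply Real.exp_le_exp.2
  rcases le_total 1 (Real.log H) with h1 | h1
  · have h2 := Real.rpow_le_rpow_of_exponent_le h1 h
    linarith
  · have h2 : (Real.log H) ^ c ≤ 1 := Real.rpow_le_one hL h1 hc.le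
    have h3 : 0 ≤ (Real.log H) ^ c' := Real.rpow_nonneg hL c'
    linarith

private theorem bk_min {α : Type} (S : Finset α) (hS : S.Nonempty) (P : α → ℝ → Prop)
    (h : ∀ x ∈ S, ∃ c : ℝ, 0 < c ∧ P x c) :
    ∃ c : ℝ, 0 < c ∧ ∀ x ∈ S, ∃ c' : ℝ, c ≤ c' ∧ P x c' := by
  choose! f hf using h
  refine ⟨S.inf' hS f, (Finset.lt_inf'_iff hS).2 fun x hx => (hf x hx).1, fun x hx => ⟨f x, Finset.inf'_le f hx, (hf x hx).2⟩⟩

private theorem bk_const {c c' : ℝ} (hc : 0 < c) (h : c ≤ c') {H : ℕ} (hH : 1 ≤ H) {N C : ℝ} {k : ℕ}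
    (h1 : N ≤ C * (H : ℝ) ^ k * Real.exp (-(Real.log H) ^ c')) :
    N ≤ (|C| * Real.exp 1) * (H : ℝ) ^ k * Real.exp (-(Real.log H) ^ c) := by
  have h2 := exp_le hc h hH
  have h3 : (0 : ℝ) ≤ (H : ℝ) ^ k := by positivity
  calc N ≤ C * (H : ℝ) ^ k * Real.exp (-(Real.log H) ^ c') := h1
    _ ≤ |C| * (H : ℝ) ^ k * Real.exp (-(Real.log H) ^ c') :=
        mul_le_mul_of_nonneg_right (mul_le_mul_of_nonneg_right (le_abs_self C) h3) (Real.exp_pos _).le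
    _ ≤ |C| * (H : ℝ) ^ k * (Real.exp 1 * Real.exp (-(Real.log H) ^ c)) :=
        mul_le_mul_of_nonneg_left h2 (mul_nonneg (abs_nonneg C) h3)
    _ = (|C| * Real.exp 1) * (H : ℝ) ^ k * Real.exp (-(Real.log H) ^ c) := by ring


theorem coversF (K : Type) [Field K] [NumberField K] [DecidableEq K] (hFR : FactRK K) (hFQ : MWS.FactQ) {r : ℕ}
    (hr : 2 ≤ r) : ∃ c : ℝ, 0 < c ∧ ∀ (e : ℕ) (ω : Module.Basis (Fin e) ℤ (𝓞 K)) (Γ : Subgroup Kˣ), Γ.FG →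
    ∀ (n h g : ℕ) (ι : Type) [Fintype ι] [DecidableEq ι] [Nonempty ι] (E : ι → Fin n → ℤ) (d : Fin (h + g) → ℕ),
    (∀ l, 1 ≤ d l) → (∀ l, r ∣ 2 * d l) → ∀ A' B' : Fin h → 𝓞 K, (∀ l, ds (A' l) (B' l) ≠ 0) →
    (∀ l, A' l = 0 ∨ B' l = 0) → (∃ q : ℕ, q.Prime ∧ q ∣ r ∧ ∀ l, (B' l = 0 → ¬ IsSquare (-1 : CyclotomicField q K)) ∧
      (A' l = 0 → ¬ IsSquare (-3 : CyclotomicField q K))) → ∃ C : ℝ, ∀ H : ℕ, 1 ≤ H →
    (Nat.card {z : Cv e g × (IxT ι d × Fin e → ℤ) // Box ω H z ∧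
      CovF Γ r E (aA ω A' z.1) (aB ω B' z.1) (cf ω z.2)} : ℝ) ≤
      C * (H : ℝ) ^ (e * (Fintype.card (IxT ι d) + 5 * g)) * Real.exp (-(Real.log H) ^ c) := by
  classical
  obtain ⟨c, hc, h⟩ := bk_min (r.primeFactors ×ˢ (Finset.univ : Finset (Bool × Bool)))
    (by
      obtain ⟨q, hq, hqr⟩ := Nat.exists_prime_and_dvd (n := r) (by omega)
      exact ⟨(q, (true, true)), Finset.mem_product.2 ⟨Nat.mem_primeFactors.2 ⟨hq, hqr, by omega⟩, Finset.mem_univ _⟩⟩)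
    (fun x c => (x.2.1 = true → ¬ IsSquare (-1 : CyclotomicField x.1 K)) →
      (x.2.2 = true → ¬ IsSquare (-3 : CyclotomicField x.1 K)) →
      ∀ (e : ℕ) (ω : Module.Basis (Fin e) ℤ (𝓞 K)) (Γ : Subgroup Kˣ), Γ.FG →
      ∀ (n h g : ℕ) (ι : Type) [Fintype ι] [DecidableEq ι] [Nonempty ι] (E : ι → Fin n → ℤ) (d : Fin (h + g) → ℕ),
      (∀ l, 1 ≤ d l) → (∀ l, x.1 ∣ 2 * d l) → ∀ A' B' : Fin h → 𝓞 K, (∀ l, ds (A' l) (B' l) ≠ 0) →
      (∀ l, A' l = 0 ∨ B' l = 0) → (∀ l, B' l = 0 → x.2.1 = true) → (∀ l, A' l = 0 → x.2.2 = true) →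
      ∃ C : ℝ, ∀ H : ℕ, 1 ≤ H →
      (Nat.card {z : Cv e g × (IxT ι d × Fin e → ℤ) // Box ω H z ∧
        CovF Γ x.1 E (aA ω A' z.1) (aB ω B' z.1) (cf ω z.2)} : ℝ) ≤
        C * (H : ℝ) ^ (e * (Fintype.card (IxT ι d) + 5 * g)) * Real.exp (-(Real.log H) ^ c))
    (by
      rintro ⟨q, a, b⟩ hx
      have hq : q.Prime := Nat.prime_of_mem_primeFactors (Finset.mem_product.1 hx).1
      have hqz : NeZero q := ⟨hq.ne_zero⟩
      by_cases hab : (a = true → ¬ IsSquare (-1 : CyclotomicField q K)) ∧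
        (b = true → ¬ IsSquare (-3 : CyclotomicField q K))
      · obtain ⟨c, hc, h⟩ := cover_LV K hFR hFQ hq (CyclotomicField q K)
          (IsCyclotomicExtension.zeta_spec q K (CyclotomicField q K))
          (mean_types (CyclotomicField q K) (a = true) (b = true) hab.1 hab.2)
        refine ⟨c, hc, fun _ _ e ω Γ hΓ n h' g ι _ _ _ E d hd hqd A' B' hds h0 hB hA => ?_⟩
        exact h e ω Γ hΓ n h' g ι E d hd hqd A' B' hds
          (ssg_types (CyclotomicField q K) A' B' hds h0 (a = true) (b = true) hB hA)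
      · exact ⟨1, one_pos, fun h1 h2 => absurd ⟨h1, h2⟩ hab⟩)
  refine ⟨c, hc, fun e ω Γ hΓ n h' g ι _ _ _ E d hd hrd A' B' hds h0 hex => ?_⟩
  obtain ⟨q, hq, hqr, hsq⟩ := hex
  obtain ⟨c', hcc, h1⟩ := h (q, (decide (∃ l, B' l = 0), decide (∃ l, A' l = 0)))
    (Finset.mem_product.2 ⟨Nat.mem_primeFactors.2 ⟨hq, hqr, by omega⟩, Finset.mem_univ _⟩)
  obtain ⟨C, hC⟩ := h1
    (fun ha => by
      obtain ⟨l, hl⟩ := of_decide_eq_true ha
      exact (hsq l).1 hl)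
    (fun hb => by
      obtain ⟨l, hl⟩ := of_decide_eq_true hb
      exact (hsq l).2 hl)
    e ω Γ hΓ n h' g ι E d hd (fun l => hqr.trans (hrd l)) A' B' hds h0
    (fun l hl => decide_eq_true ⟨l, hl⟩) (fun l hl => decide_eq_true ⟨l, hl⟩)
  refine ⟨|C| * Real.exp 1, fun H hH => bk_const hc hcc hH (le_trans ?_ (hC H hH))⟩
  obtain ⟨k, rfl⟩ := hqr
  have h2 := box_le (⇑ω) H
    (fun z : Cv e g × (IxT ι d × Fin e → ℤ) => CovF Γ (q * k) E (aA ω A' z.1) (aB ω B' z.1) (cf ω z.2))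
    (fun z : Cv e g × (IxT ι d × Fin e → ℤ) => CovF Γ q E (aA ω A' z.1) (aB ω B' z.1) (cf ω z.2))
    (by
      rintro z hz ⟨x, hx, γ, hγ, P, w, hP, hw⟩
      exact ⟨x, hx, γ, hγ, P, w ^ k, hP, by rw [← pow_mul, mul_comm k q]; exact hw⟩)
  exact_mod_cast h2

theorem intersF (K : Type) [Field K] [NumberField K] [DecidableEq K] (hFR : FactRK K) (hFQ : MWS.FactQ) :
    ∃ c : ℝ, 0 < c ∧ ∀ (e : ℕ) (ω : Module.Basis (Fin e) ℤ (𝓞 K)) (Γ : Subgroup Kˣ), Γ.FG →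
    ∀ (n h g m s : ℕ) (ι : Type) [Fintype ι] [DecidableEq ι] [Nonempty ι] (ν : Fin s → ℕ) (E : Fin s → ι → Fin n → ℤ)
    (d : Fin s → Fin (h + g) → ℕ), m ≤ s → (∀ j, 1 ≤ ν j) → m + 1 ≤ ∑ j, ν j → (∀ j l, 1 ≤ d j l) →
    ∀ A' B' : Fin h → 𝓞 K, (∀ l, ds (A' l) (B' l) ≠ 0) → (∀ l, A' l = 0 ∨ B' l = 0) →
    (∀ l, (B' l = 0 → ¬ IsSquare (-1 : K)) ∧ (A' l = 0 → ¬ IsSquare (-3 : K))) → ∃ C : ℝ, ∀ H : ℕ, 1 ≤ H →
    (Nat.card {z : Cv e g × (IxM ι m ν d × Fin e → ℤ) // Box ω H z ∧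
      ComF Γ E (aA ω A' z.1) (aB ω B' z.1) (cf ω z.2)} : ℝ) ≤
      C * (H : ℝ) ^ (e * (Fintype.card (IxM ι m ν d) + 5 * g)) * Real.exp (-(Real.log H) ^ c) := by
  classical
  obtain ⟨c, hc, h⟩ := bk_min (Finset.univ : Finset (Bool × Bool)) ⟨(true, true), Finset.mem_univ _⟩
    (fun x c => (x.1 = true → ¬ IsSquare (-1 : K)) → (x.2 = true → ¬ IsSquare (-3 : K)) →
      ∀ (e : ℕ) (ω : Module.Basis (Fin e) ℤ (𝓞 K)) (Γ : Subgroup Kˣ), Γ.FG →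
      ∀ (n h g m s : ℕ) (ι : Type) [Fintype ι] [DecidableEq ι] [Nonempty ι] (ν : Fin s → ℕ) (E : Fin s → ι → Fin n → ℤ)
      (d : Fin s → Fin (h + g) → ℕ), m ≤ s → (∀ j, 1 ≤ ν j) → m + 1 ≤ ∑ j, ν j → (∀ j l, 1 ≤ d j l) →
      ∀ A' B' : Fin h → 𝓞 K, (∀ l, ds (A' l) (B' l) ≠ 0) → (∀ l, A' l = 0 ∨ B' l = 0) →
      (∀ l, B' l = 0 → x.1 = true) → (∀ l, A' l = 0 → x.2 = true) → ∃ C : ℝ, ∀ H : ℕ, 1 ≤ H →
      (Nat.card {z : Cv e g × (IxM ι m ν d × Fin e → ℤ) // Box ω H z ∧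
        ComF Γ E (aA ω A' z.1) (aB ω B' z.1) (cf ω z.2)} : ℝ) ≤
        C * (H : ℝ) ^ (e * (Fintype.card (IxM ι m ν d) + 5 * g)) * Real.exp (-(Real.log H) ^ c))
    (by
      rintro ⟨a, b⟩ _
      by_cases hab : (a = true → ¬ IsSquare (-1 : K)) ∧ (b = true → ¬ IsSquare (-3 : K))
      · obtain ⟨c, hc, h⟩ := inter_LV K hFR hFQ (mean_types K (a = true) (b = true) hab.1 hab.2)
        refine ⟨c, hc, fun _ _ e ω Γ hΓ n h' g m s ι _ _ _ ν E d hm hν hs hd A' B' hds h0 hB hA => ?_⟩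
        exact h e ω Γ hΓ n h' g m s ι ν E d hm hν hs hd A' B' hds
          (ssg_types K A' B' hds h0 (a = true) (b = true) hB hA)
      · exact ⟨1, one_pos, fun h1 h2 => absurd ⟨h1, h2⟩ hab⟩)
  refine ⟨c, hc, fun e ω Γ hΓ n h' g m s ι _ _ _ ν E d hm hν hs hd A' B' hds h0 hsq => ?_⟩
  obtain ⟨c', hcc, h1⟩ := h (decide (∃ l, B' l = 0), decide (∃ l, A' l = 0)) (Finset.mem_univ _)
  obtain ⟨C, hC⟩ := h1
    (fun ha => by
      obtain ⟨l, hl⟩ := of_decide_eq_true ha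
      exact (hsq l).1 hl)
    (fun hb => by
      obtain ⟨l, hl⟩ := of_decide_eq_true hb
      exact (hsq l).2 hl)
    e ω Γ hΓ n h' g m s ι ν E d hm hν hs hd A' B' hds h0
    (fun l hl => decide_eq_true ⟨l, hl⟩) (fun l hl => decide_eq_true ⟨l, hl⟩)
  exact ⟨|C| * Real.exp 1, fun H hH => bk_const hc hcc hH (hC H hH)⟩

end VK
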